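import Mathlib
import Pool.Agent.H77.Z12.Sigma

/-!
Nogoods with a symmetry group: rows and columns inside the blocks may be sorted (MP_1e71f9_co).
-/

set_option autoImplicit false

namespace Pool.Agent.H26.Z12

open Pool.Agent.H77.Z12

/-- Sorting inside the blocks by a ratio. -/
theorem exists_sort_blocks (p : Fin 6 → ℕ) (f g : Fin 6 → ℝ) (hg : ∀ x, 0 < g x)
    (hne : ∀ x y, x ≠ y → f x * g y - f y * g x ≠ 0) :
    ∃ σ : Fin 6 ≃ Fin 6, (∀ x, p (σ x) = p x) ∧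
      ∀ a b, a < b → p a = p b → f (σ b) * g (σ a) < f (σ a) * g (σ b) := by
  classical
  let h : Fin 6 → ℝ := fun x => -(f x / g x)
  let K : Fin 6 → ℕ ×ₗ ℝ := fun x => toLex (p x, h x)
  let K0 : Fin 6 → ℕ ×ₗ Fin 6 := fun x => toLex (p x, x)
  let τ := Tuple.sort K
  let τ0 := Tuple.sort K0
  have hτ : Monotone (K ∘ τ) := Tuple.monotone_sort K
  have hτ0 : Monotone (K0 ∘ τ0) := Tuple.monotone_sort K0
  have fstmono : ∀ {β : Type} [LinearOrder β] {x y : ℕ ×ₗ β}, x ≤ y →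
      (ofLex x).1 ≤ (ofLex y).1 := by
    intro β _ x y hxy
    rcases Prod.Lex.le_iff.1 hxy with h1 | h1
    · exact h1.le
    · exact h1.1.le
  have m1 : Monotone (p ∘ τ) := fun i j hij => fstmono (hτ hij)
  have m2 : Monotone (p ∘ τ0) := fun i j hij => fstmono (hτ0 hij)
  have hpe : p ∘ τ = p ∘ τ0 := Tuple.unique_monotone m1 m2
  let σ : Fin 6 ≃ Fin 6 := τ0.symm.trans τ
  have hσ : ∀ x, p (σ x) = p x := by
    intro x
    have := congrFun hpe (τ0.symm x)
    simp only [Function.comp_apply, Equiv.apply_symm_apply] at this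
    exact this
  refine ⟨σ, hσ, fun a b hab hp => ?_⟩
  have h1 : τ0.symm a < τ0.symm b := by
    by_contra hcon
    have h2 := hτ0 (not_lt.1 hcon)
    simp only [Function.comp_apply, Equiv.apply_symm_apply, K0] at h2
    rcases Prod.Lex.le_iff.1 h2 with h3 | h3
    · simp only [ofLex_toLex] at h3
      omega
    · simp only [ofLex_toLex] at h3
      exact absurd h3.2 (not_le.2 hab)
  have h2 := hτ h1.le
  have h3 : h (σ a) ≤ h (σ b) := by
    rcases Prod.Lex.le_iff.1 h2 with h4 | h4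
    · have h5 : p (σ a) < p (σ b) := h4
      rw [hσ, hσ] at h5
      omega
    · exact h4.2
  have h4 : f (σ b) * g (σ a) ≤ f (σ a) * g (σ b) := by
    simp only [h, neg_le_neg_iff] at h3
    rwa [div_le_div_iff₀ (hg _) (hg _)] at h3
  have h5 := hne (σ a) (σ b) (fun h => hab.ne (σ.injective h))
  rcases lt_or_eq_of_le h4 with h6 | h6
  · exact h6
  · exact absurd (by linarith) h5

/-- All minors of order two are different from zero. -/
theorem nd_of_bad {M : Fin 6 → Fin 6 → ℝ} (hb : Bad (cf M)) {a a' b b' : Fin 6} (ha : a ≠ a')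
    (hb' : b ≠ b') : M a b * M a' b' - M a' b * M a b' ≠ 0 := by
  rcases lt_or_gt_of_ne ha with h1 | h1 <;> rcases lt_or_gt_of_ne hb' with h2 | h2
  · exact (minor_sign hb.1 h1 h2).1
  · have := (minor_sign hb.1 h1 h2).1
    intro h0
    apply this
    linarith
  · have := (minor_sign hb.1 h1 h2).1
    intro h0
    apply this
    linarith
  · have := (minor_sign hb.1 h1 h2).1
    intro h0
    apply this
    linarith

/-- The largest cross ratio inside a block of rows and a block of columns. -/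
theorem exists_max_block {M : Fin 6 → Fin 6 → ℝ} (hM : ∀ i c, 0 < M i c)
    (hnd : ∀ a a' b b' : Fin 6, a ≠ a' → b ≠ b' → M a b * M a' b' - M a' b * M a b' ≠ 0)
    (p q : Fin 6 → ℕ) {a1 a2 c1 c2 : Fin 6} (ha : a1 ≠ a2) (hc : c1 ≠ c2) (hp : p a2 = p a1)
    (hq : q c2 = q c1) :
    ∃ i i' j j' : Fin 6, p i = p a1 ∧ p i' = p a1 ∧ q j = q c1 ∧ q j' = q c1 ∧ i ≠ i' ∧ j ≠ j' ∧
      (∀ c, q c = q c1 → M i c * M i' j ≤ M i j * M i' c) ∧
      (∀ c, q c = q c1 → M i j' * M i' c ≤ M i c * M i' j') ∧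
      (∀ r, p r = p a1 → M r j * M i j' ≤ M i j * M r j') ∧
      (∀ r, p r = p a1 → M i' j * M r j' ≤ M r j * M i' j') := by
  classical
  let R : Fin 6 × Fin 6 × Fin 6 × Fin 6 → ℝ := fun x =>
    M x.1 x.2.2.1 * M x.2.1 x.2.2.2 / (M x.1 x.2.2.2 * M x.2.1 x.2.2.1)
  let s : Finset (Fin 6 × Fin 6 × Fin 6 × Fin 6) := Finset.univ.filter fun x =>
    p x.1 = p a1 ∧ p x.2.1 = p a1 ∧ q x.2.2.1 = q c1 ∧ q x.2.2.2 = q c1
  have hs : s.Nonempty := ⟨(a1, a1, c1, c1), by simp [s]⟩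
  obtain ⟨⟨i, i', j, j'⟩, hmem, hmax⟩ := Finset.exists_max_image s R hs
  simp only [s, Finset.mem_filter, Finset.mem_univ, true_and] at hmem hmax
  obtain ⟨e1, e2, e3, e4⟩ := hmem
  have hR : ∀ a a' b b', p a = p a1 → p a' = p a1 → q b = q c1 → q b' = q c1 →
      M a b * M a' b' * (M i j' * M i' j) ≤ M i j * M i' j' * (M a b' * M a' b) := by
    intro a a' b b' g1 g2 g3 g4
    have h := hmax (a, a', b, b') ⟨g1, g2, g3, g4⟩
    simp only [R] at h
    rw [div_le_div_iff₀ (mul_pos (hM _ _) (hM _ _)) (mul_pos (hM _ _) (hM _ _))] at h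
    exact h
  have hgt : M i j' * M i' j < M i j * M i' j' := by
    have h1 := hnd _ _ _ _ ha hc
    have q1 := hM i j'; have q2 := hM i' j; have q3 := hM i j; have q4 := hM i' j'
    have p1 := hM a1 c1; have p2 := hM a2 c2; have p3 := hM a2 c1; have p4 := hM a1 c2
    rcases lt_or_gt_of_ne h1 with h2 | h2
    · have h3 := hR a2 a1 c1 c2 hp rfl rfl hq
      have h4 : M a1 c1 * M a2 c2 < M a2 c1 * M a1 c2 := by linarith
      by_contra hcon
      have h5 := not_lt.1 hcon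
      have h6 : M i j * M i' j' * (M a2 c2 * M a1 c1) ≤ M i j' * M i' j * (M a2 c2 * M a1 c1) :=
        mul_le_mul_of_nonneg_right h5 (mul_pos p2 p1).le
      have h7 : M i j' * M i' j * (M a2 c2 * M a1 c1) < M i j' * M i' j * (M a2 c1 * M a1 c2) :=
        mul_lt_mul_of_pos_left (by linarith) (mul_pos q1 q2)
      linarith
    · have h3 := hR a1 a2 c1 c2 rfl hp rfl hq
      have h4 : M a2 c1 * M a1 c2 < M a1 c1 * M a2 c2 := by linarith
      by_contra hcon
      have h5 := not_lt.1 hcon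
      have h6 : M i j * M i' j' * (M a1 c2 * M a2 c1) ≤ M i j' * M i' j * (M a1 c2 * M a2 c1) :=
        mul_le_mul_of_nonneg_right h5 (mul_pos p4 p3).le
      have h7 : M i j' * M i' j * (M a1 c2 * M a2 c1) < M i j' * M i' j * (M a1 c1 * M a2 c2) :=
        mul_lt_mul_of_pos_left (by linarith) (mul_pos q1 q2)
      linarith
  refine ⟨i, i', j, j', e1, e2, e3, e4, ?_, ?_, ?_, ?_, ?_, ?_⟩
  · rintro rfl
    rw [mul_comm] at hgt
    exact lt_irrefl _ hgt
  · rintro rfl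
    exact lt_irrefl _ hgt
  · intro c hc'
    have h := hR i i' c j' e1 e2 hc' e4
    have q := mul_pos (hM i j') (hM i' j')
    have : (M i c * M i' j) * (M i j' * M i' j') ≤ (M i j * M i' c) * (M i j' * M i' j') := by
      linarith
    exact le_of_mul_le_mul_right this q
  · intro c hc'
    have h := hR i i' j c e1 e2 e3 hc'
    have q := mul_pos (hM i j) (hM i' j)
    have : (M i j' * M i' c) * (M i j * M i' j) ≤ (M i c * M i' j') * (M i j * M i' j) := by
      linarith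
    exact le_of_mul_le_mul_right this q
  · intro r hr
    have h := hR r i' j j' hr e2 e3 e4
    have q := mul_pos (hM i' j) (hM i' j')
    have : (M r j * M i j') * (M i' j * M i' j') ≤ (M i j * M r j') * (M i' j * M i' j') := by
      linarith
    exact le_of_mul_le_mul_right this q
  · intro r hr
    have h := hR i r j j' e1 hr e3 e4
    have q := mul_pos (hM i j) (hM i j')
    have : (M i' j * M r j') * (M i j * M i j') ≤ (M r j * M i' j') * (M i j * M i j') := by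
      linarith
    exact le_of_mul_le_mul_right this q

/-- The ends of a sorted block are the elements with extreme ratios. -/
theorem sort_ends {p : Fin 6 → ℕ} {f g : Fin 6 → ℝ} {σ : Fin 6 ≃ Fin 6}
    (hσ : ∀ x, p (σ x) = p x)
    (hs : ∀ a b, a < b → p a = p b → f (σ b) * g (σ a) < f (σ a) * g (σ b)) {a1 a2 i i' : Fin 6}
    (h1 : ∀ x, p x = p a1 → a1 ≤ x) (h2 : ∀ x, p x = p a1 → x ≤ a2) (h12 : p a2 = p a1)
    (hi : p i = p a1) (hi' : p i' = p a1)
    (hmax : ∀ x, p x = p a1 → f x * g i ≤ f i * g x)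
    (hmin : ∀ x, p x = p a1 → f i' * g x ≤ f x * g i') : σ a1 = i ∧ σ a2 = i' := by
  constructor
  · by_contra hcon
    have hx : p (σ.symm i) = p a1 := by rw [← hσ (σ.symm i), σ.apply_symm_apply, hi]
    have hlt : a1 < σ.symm i := lt_of_le_of_ne (h1 _ hx) fun h => hcon (by
      rw [h, σ.apply_symm_apply])
    have h3 := hs _ _ hlt hx.symm
    rw [σ.apply_symm_apply] at h3
    exact absurd (hmax (σ a1) (hσ a1)) (not_le.2 h3)
  · by_contra hcon
    have hx : p (σ.symm i') = p a1 := by rw [← hσ (σ.symm i'), σ.apply_symm_apply, hi']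
    have hlt : σ.symm i' < a2 := lt_of_le_of_ne (h2 _ hx) fun h => hcon (by
      rw [← h, σ.apply_symm_apply])
    have h3 := hs _ _ hlt (by rw [hx, h12])
    rw [σ.apply_symm_apply] at h3
    exact absurd (hmin (σ a2) (by rw [hσ, h12])) (not_le.2 h3)

/-- Rows sorted by the columns `c1, c2`, columns sorted by the rows `a1, a2`, inside the blocks. -/
def Srt (p q : Fin 6 → ℕ) (a1 a2 c1 c2 : Fin 6) (M : Fin 6 → Fin 6 → ℝ) : Prop :=
  (∀ a a', a < a' → p a = p a' → 0 < M a c1 * M a' c2 - M a' c1 * M a c2) ∧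
    ∀ c c', c < c' → q c = q c' → 0 < M a1 c * M a2 c' - M a2 c * M a1 c'

/-- When sorting is possible. -/
def SortOK (p q : Fin 6 → ℕ) (a1 a2 c1 c2 : Fin 6) : Prop :=
  ((∀ x, q x = q c1 → x = c1) ∧ ∀ x, q x = q c2 → x = c2) ∨
  ((∀ x, p x = p a1 → x = a1) ∧ ∀ x, p x = p a2 → x = a2) ∨
  (p a2 = p a1 ∧ q c2 = q c1 ∧ (∀ x, p x = p a1 → a1 ≤ x ∧ x ≤ a2) ∧
    ∀ x, q x = q c1 → c1 ≤ x ∧ x ≤ c2)

/-- **Sorting.** -/
theorem exists_srt_nd {M : Fin 6 → Fin 6 → ℝ} (hM : ∀ i c, 0 < M i c)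
    (hnd : ∀ a a' b b' : Fin 6, a ≠ a' → b ≠ b' → M a b * M a' b' - M a' b * M a b' ≠ 0)
    {p q : Fin 6 → ℕ} {a1 a2 c1 c2 : Fin 6} (ha : a1 < a2) (hc : c1 < c2)
    (hok : SortOK p q a1 a2 c1 c2) :
    ∃ ρ γ : Fin 6 ≃ Fin 6, (∀ x, p (ρ x) = p x) ∧ (∀ x, q (γ x) = q x) ∧
      Srt p q a1 a2 c1 c2 fun a c => M (ρ a) (γ c) := by
  have hrow : ∀ j j' : Fin 6, j ≠ j' → ∀ x y : Fin 6, x ≠ y →
      M x j * M y j' - M y j * M x j' ≠ 0 := fun j j' hj x y hxy => hnd _ _ _ _ hxy hj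
  have hcol : ∀ i i' : Fin 6, i ≠ i' → ∀ x y : Fin 6, x ≠ y →
      M i x * M i' y - M i y * M i' x ≠ 0 := by
    intro i i' hi x y hxy h0
    apply hnd _ _ _ _ hi hxy
    linarith
  rcases hok with ⟨k1, k2⟩ | ⟨k1, k2⟩ | ⟨kp, kq, kr, kc⟩
  · obtain ⟨ρ, hρ, sρ⟩ := exists_sort_blocks p (fun x => M x c1) (fun x => M x c2)
      (fun x => hM x c2) (hrow c1 c2 hc.ne)
    have hne : ρ a1 ≠ ρ a2 := fun h => ha.ne (ρ.injective h)
    obtain ⟨γ, hγ, sγ⟩ := exists_sort_blocks q (fun x => M (ρ a1) x) (fun x => M (ρ a2) x)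
      (fun x => hM _ x) (hcol _ _ hne)
    have g1 : γ c1 = c1 := k1 _ (hγ c1)
    have g2 : γ c2 = c2 := k2 _ (hγ c2)
    refine ⟨ρ, γ, hρ, hγ, fun a a' haa hp => ?_, fun c c' hcc hq => ?_⟩
    · have := sρ a a' haa hp
      simp only [g1, g2]
      linarith
    · have := sγ c c' hcc hq
      simp only
      linarith
  · obtain ⟨γ, hγ, sγ⟩ := exists_sort_blocks q (fun x => M a1 x) (fun x => M a2 x)
      (fun x => hM _ x) (hcol _ _ ha.ne)
    have hne : γ c1 ≠ γ c2 := fun h => hc.ne (γ.injective h)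
    obtain ⟨ρ, hρ, sρ⟩ := exists_sort_blocks p (fun x => M x (γ c1)) (fun x => M x (γ c2))
      (fun x => hM x _) (hrow _ _ hne)
    have g1 : ρ a1 = a1 := k1 _ (hρ a1)
    have g2 : ρ a2 = a2 := k2 _ (hρ a2)
    refine ⟨ρ, γ, hρ, hγ, fun a a' haa hp => ?_, fun c c' hcc hq => ?_⟩
    · have := sρ a a' haa hp
      simp only
      linarith
    · have := sγ c c' hcc hq
      simp only [g1, g2]
      linarith
  · obtain ⟨i, i', j, j', e1, e2, e3, e4, hii, hjj, h1, h2, h3, h4⟩ :=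
      exists_max_block hM hnd p q ha.ne hc.ne kp kq
    obtain ⟨ρ, hρ, sρ⟩ := exists_sort_blocks p (fun x => M x j) (fun x => M x j')
      (fun x => hM x j') (hrow j j' hjj)
    obtain ⟨γ, hγ, sγ⟩ := exists_sort_blocks q (fun x => M i x) (fun x => M i' x)
      (fun x => hM _ x) (hcol _ _ hii)
    obtain ⟨r1, r2⟩ := sort_ends (f := fun x => M x j) (g := fun x => M x j') hρ sρ (a1 := a1)
      (a2 := a2) (i := i) (i' := i')
      (fun x hx => (kr x hx).1) (fun x hx => (kr x hx).2) kp e1 e2 h3 h4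
    obtain ⟨s1, s2⟩ := sort_ends (f := fun x => M i x) (g := fun x => M i' x) hγ sγ (a1 := c1)
      (a2 := c2) (i := j) (i' := j')
      (fun x hx => (kc x hx).1) (fun x hx => (kc x hx).2) kq e3 e4
      (fun x hx => by have := h1 x hx; linarith) (fun x hx => by have := h2 x hx; linarith)
    refine ⟨ρ, γ, hρ, hγ, fun a a' haa hp => ?_, fun c c' hcc hq => ?_⟩
    · have := sρ a a' haa hp
      simp only [s1, s2]
      linarith
    · have := sγ c c' hcc hq
      simp only [r1, r2]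
      linarith

theorem exists_srt {M : Fin 6 → Fin 6 → ℝ} (hM : ∀ i c, 0 < M i c) (hb : Bad (cf M))
    {p q : Fin 6 → ℕ} {a1 a2 c1 c2 : Fin 6} (ha : a1 < a2) (hc : c1 < c2)
    (hok : SortOK p q a1 a2 c1 c2) :
    ∃ ρ γ : Fin 6 ≃ Fin 6, (∀ x, p (ρ x) = p x) ∧ (∀ x, q (γ x) = q x) ∧
      Srt p q a1 a2 c1 c2 fun a c => M (ρ a) (γ c) :=
  exists_srt_nd hM (fun _ _ _ _ h h' => nd_of_bad hb h h') ha hc hok

/-- Rows and columns sorted in the opposite direction. -/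
def SrtN (p q : Fin 6 → ℕ) (a1 a2 c1 c2 : Fin 6) (M : Fin 6 → Fin 6 → ℝ) : Prop :=
  (∀ a a', a < a' → p a = p a' → M a c1 * M a' c2 - M a' c1 * M a c2 < 0) ∧
    ∀ c c', c < c' → q c = q c' → M a1 c * M a2 c' - M a2 c * M a1 c' < 0

theorem inv_minor {a b c d : ℝ} (ha : 0 < a) (hb : 0 < b) (hc : 0 < c) (hd : 0 < d) :
    a⁻¹ * b⁻¹ - c⁻¹ * d⁻¹ = -((a * b - c * d) / (a * b * (c * d))) := by
  have := ha.ne'; have := hb.ne'; have := hc.ne'; have := hd.ne'
  field_simp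
  ring

theorem exists_srt_neg {M : Fin 6 → Fin 6 → ℝ} (hM : ∀ i c, 0 < M i c) (hb : Bad (cf M))
    {p q : Fin 6 → ℕ} {a1 a2 c1 c2 : Fin 6} (ha : a1 < a2) (hc : c1 < c2)
    (hok : SortOK p q a1 a2 c1 c2) :
    ∃ ρ γ : Fin 6 ≃ Fin 6, (∀ x, p (ρ x) = p x) ∧ (∀ x, q (γ x) = q x) ∧
      SrtN p q a1 a2 c1 c2 fun a c => M (ρ a) (γ c) := by
  have hpos : ∀ a b c d : Fin 6, ∀ a' b' c' d' : Fin 6,
      0 < M a b * M c d * (M a' b' * M c' d') := fun a b c d a' b' c' d' =>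
    mul_pos (mul_pos (hM _ _) (hM _ _)) (mul_pos (hM _ _) (hM _ _))
  obtain ⟨ρ, γ, h1, h2, h3, h4⟩ := exists_srt_nd (M := fun a c => (M a c)⁻¹)
    (fun i c => inv_pos.2 (hM i c)) (p := p) (q := q) (fun a a' b b' haa hbb h0 => by
      have h0' : (M a b)⁻¹ * (M a' b')⁻¹ - (M a' b)⁻¹ * (M a b')⁻¹ = 0 := h0
      rw [inv_minor (hM _ _) (hM _ _) (hM _ _) (hM _ _), neg_eq_zero, div_eq_zero_iff] at h0'
      rcases h0' with h | h
      · exact nd_of_bad hb haa hbb h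
      · exact (hpos _ _ _ _ _ _ _ _).ne' h) ha hc hok
  have key : ∀ {a b c d a' b' c' d' : Fin 6},
      0 < (M a b)⁻¹ * (M c d)⁻¹ - (M a' b')⁻¹ * (M c' d')⁻¹ →
      M a b * M c d - M a' b' * M c' d' < 0 := by
    intro a b c d a' b' c' d' h
    rw [inv_minor (hM _ _) (hM _ _) (hM _ _) (hM _ _)] at h
    by_contra hcon
    have := div_nonneg (not_lt.1 hcon) (hpos a b c d a' b' c' d').le
    linarith
  exact ⟨ρ, γ, h1, h2, fun a a' haa hp => key (h3 a a' haa hp),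
    fun c c' hcc hq => key (h4 c c' hcc hq)⟩

end Pool.Agent.H26.Z12
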