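import Mathlib
import Pool.Agent.H26.Z12.Sorted
import Pool.Agent.H28.Z12.Cond

/-!
Excluded patterns with a symmetry group: from two sorted refutations to the excluded pattern
(MP_1e71f9_co).
-/

set_option autoImplicit false

namespace Pool.Agent.H26.Z12

open Pool.Agent.H77.Z12 Pool.Agent.H28.Z12 Pool.Agent.H13.Z12 Pool.Agent.H28.Z12.Cov

/-- The block of `x`, coded by octal digits. -/
def blk (b : ℕ) (x : Fin 6) : ℕ := (b >>> (3 * (x : ℕ))) % 8

/-- The pattern is constant on the blocks. -/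
def Inv (p q m w : ℕ) : Prop := ∀ k k' j j' : Fin 6, blk q k = blk q k' → blk p j = blk p j' →
  m.testBit (6 * k + j) = m.testBit (6 * k' + j') ∧
    (m.testBit (6 * k + j) = true → w.testBit (6 * k + j) = w.testBit (6 * k' + j'))

instance (p q m w : ℕ) : Decidable (Inv p q m w) := by unfold Inv; infer_instance

instance (p q : Fin 6 → ℕ) (a1 a2 c1 c2 : Fin 6) : Decidable (SortOK p q a1 a2 c1 c2) := by
  unfold SortOK; infer_instance

theorem sat_act {p q m w : ℕ} (hinv : Inv p q m w) (hm : m < 2 ^ 36) {ρ γ : Equiv.Perm (Fin 6)}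
    (hρ : ∀ x, blk p (ρ x) = blk p x) (hγ : ∀ x, blk q (γ x) = blk q x) {s : St36}
    (hs : Pool.Agent.H77.Z12.Sat m w s) : Pool.Agent.H77.Z12.Sat m w (actS ρ γ s) := by
  refine ⟨fun k j hkj => ?_, fun h => ?_⟩
  · obtain ⟨e1, e2⟩ := hinv k (γ k) j (ρ j) (hγ k).symm (hρ j).symm
    rw [e2 hkj]
    exact hs.1 (γ k) (ρ j) (e1 ▸ hkj)
  · rw [Nat.testBit_lt_two_pow hm] at h
    exact absurd h (by decide)

/-- The mask of the minor `(a, a'; c, c')`. -/
def mm (a a' c c' : ℕ) : ℕ := rm a a' ||| 2 ^ (6 + c) ||| 2 ^ (6 + c')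

/-- The value of `χ` at the minor `(a, a'; c, c')` when the minor is positive. -/
def mb (a a' : ℕ) : Bool := !(xor (ipm (rm a a') a) (ipm (rm a a') a'))

/-- The further signs of a sorted refutation. -/
def srtE (p q : ℕ) (a1 a2 c1 c2 : Fin 6) : List (ℕ × Bool) :=
  (List.finRange 6).flatMap fun x => (List.finRange 6).flatMap fun y =>
    if x < y then
      (if blk p x = blk p y then [(mm x y c1 c2, mb x y)] else []) ++
        (if blk q x = blk q y then [(mm a1 a2 x y, mb a1 a2)] else [])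
    else []

theorem rm_facts2 : ∀ a a' : Fin 6, a < a' → (rm a a' ||| 2 ^ (a : ℕ) ||| 2 ^ (a' : ℕ)) = 63 ∧
    ∀ c c' : Fin 6, c < c' → ipm (rm a a') (6 + c) = false ∧ ipm (rm a a') (6 + c') = false := by
  decide +kernel

variable {χ T : ℕ → Bool}

theorem chi_mm (h63 : χ 63 = true) {a a' c c' : Fin 6} (ha : a < a') (hc : c < c')
    (h : fsm χ (rm a a') (6 + c) (6 + c') = fsm χ (rm a a') a a') :
    χ (mm a a' c c') = mb a a' := by
  obtain ⟨e0, e1⟩ := rm_facts2 a a' ha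
  obtain ⟨e2, e3⟩ := e1 c c' hc
  rw [fsm, fsm, e0, h63, e2, e3] at h
  rw [mb, mm]
  revert h
  cases χ (rm ↑a ↑a' ||| 2 ^ (6 + (c : ℕ)) ||| 2 ^ (6 + (c' : ℕ))) <;>
    cases ipm (rm ↑a ↑a') ↑a <;> cases ipm (rm ↑a ↑a') ↑a' <;> simp

theorem mem_srtE {p q : ℕ} {a1 a2 c1 c2 : Fin 6} {e : ℕ × Bool}
    (he : e ∈ srtE p q a1 a2 c1 c2) :
    (∃ x y : Fin 6, x < y ∧ blk p x = blk p y ∧ e = (mm x y c1 c2, mb x y)) ∨
      ∃ x y : Fin 6, x < y ∧ blk q x = blk q y ∧ e = (mm a1 a2 x y, mb a1 a2) := by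
  unfold srtE at he
  obtain ⟨x, -, hx⟩ := List.mem_flatMap.1 he
  obtain ⟨y, -, hy⟩ := List.mem_flatMap.1 hx
  by_cases hxy : x < y
  · rw [if_pos hxy] at hy
    rcases List.mem_append.1 hy with h | h
    · by_cases hp : blk p x = blk p y
      · rw [if_pos hp] at h
        exact Or.inl ⟨x, y, hxy, hp, List.mem_singleton.1 h⟩
      · rw [if_neg hp] at h
        exact absurd h List.not_mem_nil
    · by_cases hq : blk q x = blk q y
      · rw [if_pos hq] at h
        exact Or.inr ⟨x, y, hxy, hq, List.mem_singleton.1 h⟩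
      · rw [if_neg hq] at h
        exact absurd h List.not_mem_nil
  · rw [if_neg hxy] at hy
    exact absurd hy List.not_mem_nil

/-- The images used by a conditional refutation are excluded. -/
def ExtOK (X nX : ℕ) : Prop := ∀ M : Fin 6 → Fin 6 → ℝ, Bad (cf M) → (∀ i c, 0 < M i c) →
  ∀ e < nX, ¬ SatC (chiN (cf M)) (ngM X e) (ngV X e)

theorem extOK_zero (X : ℕ) : ExtOK X 0 := fun _ _ _ e he => absurd he (Nat.not_lt_zero e)

theorem extOK_of {X nX G j C : ℕ} (hX : extA G j X C nX = true) (hd : detX X nX = true)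
    (hG : ∀ i < j, Good (ngM G i) (ngV G i)) : ExtOK X nX := by
  intro M hb hM e he hsat
  obtain ⟨i, hi, p, q, himg⟩ := extA_spec hX e he
  exact (hG i hi).act hb hM _ _ (img_spec himg (stt M)
    (List.all_eq_true.1 hd e (List.mem_range.2 he)) (satC_iff.1 hsat))

/-- All signs of `E` are signs of sorted matrices. -/
def subE (E : List (ℕ × Bool)) (p q : ℕ) (a1 a2 c1 c2 : Fin 6) : Bool :=
  E.all fun e => (srtE p q a1 a2 c1 c2).contains e

attribute [local irreducible] chiN topN sigma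

/-- **Sorted patterns.** The pattern `(m, w)` without the sign of the determinant is constant on
the blocks `p` of rows and `q` of columns; it is excluded if it is refuted for both signs of the
determinant with the further signs of the sorted rows and columns. -/
theorem good_of_sorted {p q m w X1 n1 X0 n0 : ℕ} {E1 E0 : List (ℕ × Bool)} {a1 a2 c1 c2 : Fin 6}
    (h1 : RefX (m ||| 2 ^ 36) (w ||| 2 ^ 36) E1 X1 n1) (h0 : RefX (m ||| 2 ^ 36) w E0 X0 n0)
    (x1 : ExtOK X1 n1) (x0 : ExtOK X0 n0) (ha : a1 < a2) (hc : c1 < c2) (hm : m < 2 ^ 36)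
    (hw : w < 2 ^ 36) (hinv : Inv p q m w) (hok : SortOK (blk p) (blk q) a1 a2 c1 c2)
    (s1 : subE E1 p q a1 a2 c1 c2 = true) (s0 : subE E0 p q a1 a2 c1 c2 = true) :
    Good m w := by
  intro M hb hM hs
  obtain ⟨ρ, γ, hρ, hγ, hsr⟩ := exists_srt hM hb ha hc hok
  have hb' := bad_perm hb ρ γ
  have hM' : ∀ i c, 0 < (fun a b => M (ρ a) (γ b)) i c := fun i c => hM _ _
  obtain ⟨h63, hS, hMod⟩ := chart_facts hb' hM'
  have hs' := sat_act hinv hm hρ hγ hs
  rw [← stt_perm hb] at hs'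
  have hall : ∀ e ∈ srtE p q a1 a2 c1 c2,
      chiN (cf fun a b => M (ρ a) (γ b)) e.1 = e.2 := by
    intro e he
    rcases mem_srtE he with ⟨x, y, hxy, hp, rfl⟩ | ⟨x, y, hxy, hq, rfl⟩
    · exact chi_mm h63 hxy hc ((minor_sign hb'.1 hxy hc).2.1 (hsr.1 x y hxy hp))
    · exact chi_mm h63 ha hxy ((minor_sign hb'.1 ha hxy).2.1 (hsr.2 x y hxy hq))
  have hE : ∀ {E : List (ℕ × Bool)}, subE E p q a1 a2 c1 c2 = true →
      ∀ e ∈ E, chiN (cf fun a b => M (ρ a) (γ b)) e.1 = e.2 := by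
    intro E hE e he
    exact hall e (List.contains_iff_mem.1 (List.all_eq_true.1 hE e he))
  have hbit : ∀ (x : ℕ) (k j : Fin 6), (x ||| 2 ^ 36).testBit (6 * (k : ℕ) + j) =
      x.testBit (6 * (k : ℕ) + j) := by
    intro x k j
    rw [Nat.testBit_or, Nat.testBit_two_pow, decide_eq_false (by omega), Bool.or_false]
  rcases hD : (stt fun a b => M (ρ a) (γ b)).2 with _ | _
  · refine h0 _ _ hMod h63 hS (satC_iff.2 ⟨fun k j h => hs'.1 k j (by rw [← hbit m k j]; exact h),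
      fun _ => ?_⟩) (hE s0) (x0 _ hb' hM')
    rw [hD, Nat.testBit_lt_two_pow hw]
  · refine h1 _ _ hMod h63 hS (satC_iff.2 ⟨fun k j h => ?_, fun _ => ?_⟩) (hE s1) (x1 _ hb' hM')
    · rw [hbit w k j]
      exact hs'.1 k j (by rw [← hbit m k j]; exact h)
    · rw [hD, Nat.testBit_or, Nat.testBit_two_pow]
      simp

end Pool.Agent.H26.Z12
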