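import Mathlib
import Pool.Agent.H26.Z12.SortedRef

/-!
The chart of a bad configuration at another simplicial basis (MP_1e71f9_co).
-/

set_option autoImplicit false

namespace Pool.Agent.H26.Z12

open Finset Matrix Pool.Agent.H67.Nu Pool.Agent.H77.Z12 Pool.Agent.H28.Z12 Pool.Agent.H13.Z12

/-- The images of the first six elements. -/
def fE (π : Equiv.Perm (Fin 12)) : Finset (Fin 12) := univ.image fun a : Fin 6 => π (ra a)

/-- The images of the last six elements. -/
def gE (π : Equiv.Perm (Fin 12)) : Finset (Fin 12) := univ.image fun b : Fin 6 => π (cb b)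

theorem ra_inj' : Function.Injective ra := fun _ _ h => ra_inj h

theorem cb_inj' : Function.Injective cb := by
  intro a b h
  have := congrArg Fin.val h
  rw [cb_val, cb_val] at this
  exact Fin.ext (by omega)

theorem ra_ne_cb (a b : Fin 6) : ra a ≠ cb b := by
  intro h
  have := congrArg Fin.val h
  rw [cb_val, ra_lt] at this
  have := a.2
  omega

variable {v : Fin 12 → Fin 6 → ℝ}

/-- The sign of a coordinate. -/
theorem coord_sign (hv : Gen v) {l : Fin 6 → Fin 12} (hl : Function.Injective l) {y : Fin 12}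
    (hy : ∀ a, l a ≠ y) (a : Fin 6) :
    0 < sg (cs v ((univ.image l).erase (l a)) (l a) == cs v ((univ.image l).erase (l a)) y) *
      ((v y) ᵥ* (Matrix.of fun i => v (l i))⁻¹) a := by
  classical
  set B := Matrix.of fun i => v (l i) with hB
  have hdet : B.det ≠ 0 := hv l hl
  have hu : IsUnit B.det := isUnit_iff_ne_zero.2 hdet
  have hmul := Matrix.mul_nonsing_inv B hu
  set q : Fin 6 → ℝ := fun i => B⁻¹ i a with hq
  have hqv : ∀ z : Fin 12, q ⬝ᵥ v z = ((v z) ᵥ* B⁻¹) a := by
    intro z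
    rw [dotProduct_comm]
    rfl
  have hqc : ∀ a' : Fin 6, q ⬝ᵥ v (l a') = if a' = a then 1 else 0 := by
    intro a'
    have h1 := congrFun (congrFun hmul a') a
    rw [Matrix.mul_apply, Matrix.one_apply] at h1
    rw [dotProduct_comm, dotProduct, ← h1]
    rfl
  have hcard : ((univ.image l).erase (l a)).card = 5 := by
    rw [Finset.card_erase_of_mem (Finset.mem_image_of_mem _ (Finset.mem_univ _)),
      Finset.card_image_of_injective _ hl, Finset.card_univ, Fintype.card_fin]
  have hyn : y ∉ (univ.image l).erase (l a) := by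
    intro h
    obtain ⟨a', -, h'⟩ := Finset.mem_image.1 (Finset.mem_of_mem_erase h)
    exact hy a' h'
  have h := cs_ratio hv hcard (Finset.notMem_erase _ _) hyn (q := q) (fun d hd => by
      rw [Finset.mem_erase] at hd
      obtain ⟨a', -, rfl⟩ := Finset.mem_image.1 hd.2
      rw [hqc, if_neg]
      intro h0
      exact hd.1 (by rw [h0])) (by rw [hqc, if_pos rfl]; exact one_ne_zero)
  rw [hqc, if_pos rfl, one_mul, hqv] at h
  exact h

attribute [local irreducible] chiN topN sigma

/-- **The chart at another basis.** -/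
theorem chart_at (hb : Bad v) (π : Equiv.Perm (Fin 12)) (s : Fin 12 → Bool)
    (h : ∀ a b : Fin 6, (cs v ((fE π).erase (π (ra a))) (π (ra a)) ==
      cs v ((fE π).erase (π (ra a))) (π (cb b))) = (s (π (ra a)) == s (π (cb b)))) :
    ∃ M : Fin 6 → Fin 6 → ℝ, Bad (cf M) ∧ (∀ i c, 0 < M i c) ∧
      (∀ b a : Fin 6, (stt M).1 b a = ((s (π (ra a)) == s (π (cb b))) ==
        (cs v ((gE π).erase (π (cb b))) (π (cb b)) ==
          cs v ((gE π).erase (π (cb b))) (π (ra a))))) ∧
      0 < sg (stt M).2 * ((∏ j, sg (s j)) * (D v (fun b => π (cb b)) * D v (fun a => π (ra a)))) := by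
  classical
  have hv := hb.1
  have hfi : Function.Injective fun a : Fin 6 => π (ra a) := π.injective.comp ra_inj'
  have hgi : Function.Injective fun b : Fin 6 => π (cb b) := π.injective.comp cb_inj'
  have hne : ∀ a b : Fin 6, π (ra a) ≠ π (cb b) := fun a b h0 => ra_ne_cb a b (π.injective h0)
  obtain ⟨B, hB⟩ : ∃ B : Matrix (Fin 6) (Fin 6) ℝ, B = Matrix.of fun i => v (π (ra i)) := ⟨_, rfl⟩
  obtain ⟨C, hC⟩ : ∃ C : Matrix (Fin 6) (Fin 6) ℝ, C = Matrix.of fun i => v (π (cb i)) := ⟨_, rfl⟩
  have hBd : B.det ≠ 0 := by rw [hB]; exact hv _ hfi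
  have hCd : C.det ≠ 0 := by rw [hC]; exact hv _ hgi
  have hBu : IsUnit B.det := isUnit_iff_ne_zero.2 hBd
  have hCu : IsUnit C.det := isUnit_iff_ne_zero.2 hCd
  have hB1 : B⁻¹ * B = 1 := Matrix.nonsing_inv_mul B hBu
  have hC1 : C⁻¹ * C = 1 := Matrix.nonsing_inv_mul C hCu
  -- coordinates
  have c1 : ∀ a b : Fin 6, 0 < sg (s (π (ra a)) == s (π (cb b))) * (C * B⁻¹) b a := by
    intro a b
    have h1 := coord_sign hv hfi (y := π (cb b)) (fun a => hne a b) a
    have h2 := h a b
    rw [fE] at h2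
    have h3 : (cs v ((univ.image fun a : Fin 6 => π (ra a)).erase (π (ra a))) (π (ra a)) ==
      cs v ((univ.image fun a : Fin 6 => π (ra a)).erase (π (ra a))) (π (cb b))) =
        (s (π (ra a)) == s (π (cb b))) := h2
    rw [h3, ← hB] at h1
    have e : (C * B⁻¹) b a = (v (π (cb b)) ᵥ* B⁻¹) a := by
      rw [hC, Matrix.mul_apply, Matrix.vecMul, dotProduct]
      rfl
    rw [e]
    exact h1
  have c2 : ∀ a b : Fin 6, 0 < sg (cs v ((gE π).erase (π (cb b))) (π (cb b)) ==
      cs v ((gE π).erase (π (cb b))) (π (ra a))) * (B * C⁻¹) a b := by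
    intro a b
    have h1 := coord_sign hv hgi (y := π (ra a)) (fun b h0 => hne a b h0.symm) b
    rw [← hC] at h1
    have e : (B * C⁻¹) a b = (v (π (ra a)) ᵥ* C⁻¹) b := by
      rw [hB, Matrix.mul_apply, Matrix.vecMul, dotProduct]
      rfl
    rw [e]
    exact h1
  -- the matrix
  obtain ⟨M, hM⟩ : ∃ M : Fin 6 → Fin 6 → ℝ, M = fun a b =>
    sg (s (π (ra a))) * sg (s (π (cb b))) * (C * B⁻¹) b a := ⟨_, rfl⟩
  have hMpos : ∀ i c, 0 < M i c := by
    intro a b
    have := c1 a b
    rw [sg_beq] at this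
    rw [hM]
    exact this
  let A : Matrix (Fin 6) (Fin 6) ℝ := Matrix.of fun i k => sg (s (π (ra i))) * B i k
  have hA : A.det = (∏ i, sg (s (π (ra i)))) * B.det := Matrix.det_mul_column _ B
  have hAd : A.det ≠ 0 := by
    rw [hA]
    exact mul_ne_zero (Finset.prod_ne_zero_iff.2 fun i _ => sg_ne_zero _) hBd
  have hrel : ∀ j, sg (s (π j)) • v (π j) = cf M j ᵥ* A := by
    intro j
    refine Fin.addCases (m := 6) (n := 6) (fun i => ?_) (fun c => ?_) j
    · show sg (s (π (ra i))) • v (π (ra i)) = cf M (ra i) ᵥ* A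
      rw [cf_ra, Matrix.single_one_vecMul]
      funext k
      simp only [Pi.smul_apply, smul_eq_mul]
      show _ = sg (s (π (ra i))) * B i k
      rw [hB]
      rfl
    · show sg (s (π (cb c))) • v (π (cb c)) = cf M (cb c) ᵥ* A
      rw [cf_cb]
      funext k
      simp only [Pi.smul_apply, smul_eq_mul, Matrix.vecMul, dotProduct]
      have e1 : v (π (cb c)) k = ((C * B⁻¹) * B) c k := by
        rw [Matrix.mul_assoc, hB1, Matrix.mul_one, hC]
        rfl
      rw [e1, Matrix.mul_apply, Finset.mul_sum]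
      refine Finset.sum_congr rfl fun i _ => ?_
      show _ = M i c * (sg (s (π (ra i))) * B i k)
      have e2 := sg_mul_self (s (π (ra i)))
      have e3 : M i c = sg (s (π (ra i))) * sg (s (π (cb c))) * (C * B⁻¹) c i := by rw [hM]
      rw [e3]
      calc sg (s (π (cb c))) * ((C * B⁻¹) c i * B i k) =
          (sg (s (π (ra i))) * sg (s (π (ra i)))) * (sg (s (π (cb c))) * ((C * B⁻¹) c i * B i k)) := by
            rw [e2, one_mul]
        _ = _ := by ring
  have hbad : Bad (cf M) := hb.transfer (π := π) (ε := fun j => s (π j)) hAd hrel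
  -- the inverse
  have hinv : ∀ b a : Fin 6, (Matrix.of M)⁻¹ b a =
      sg (s (π (ra a))) * sg (s (π (cb b))) * (B * C⁻¹) a b := by
    have e1 : (Matrix.of M) * (Matrix.of fun b a : Fin 6 =>
        sg (s (π (ra a))) * sg (s (π (cb b))) * (B * C⁻¹) a b) = 1 := by
      ext a a'
      rw [Matrix.mul_apply, Matrix.one_apply]
      have e2 : ∀ b : Fin 6, (Matrix.of M) a b * (Matrix.of fun b a : Fin 6 =>
          sg (s (π (ra a))) * sg (s (π (cb b))) * (B * C⁻¹) a b) b a' =
          sg (s (π (ra a))) * sg (s (π (ra a'))) * ((B * C⁻¹) a' b * (C * B⁻¹) b a) := by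
        intro b
        have e3 := sg_mul_self (s (π (cb b)))
        have e4 : (Matrix.of M) a b = sg (s (π (ra a))) * sg (s (π (cb b))) * (C * B⁻¹) b a := by
          rw [Matrix.of_apply, hM]
        rw [e4, Matrix.of_apply]
        calc _ = (sg (s (π (cb b))) * sg (s (π (cb b)))) * (sg (s (π (ra a))) *
            sg (s (π (ra a'))) * ((B * C⁻¹) a' b * (C * B⁻¹) b a)) := by ring
          _ = _ := by rw [e3, one_mul]
      rw [Finset.sum_congr rfl fun b _ => e2 b, ← Finset.mul_sum]
      have e5 : ∑ b, (B * C⁻¹) a' b * (C * B⁻¹) b a = if a' = a then 1 else 0 := by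
        rw [← Matrix.mul_apply]
        have e6 : (B * C⁻¹) * (C * B⁻¹) = 1 := by
          rw [Matrix.mul_assoc, ← Matrix.mul_assoc C⁻¹, hC1, Matrix.one_mul,
            Matrix.mul_nonsing_inv B hBu]
        rw [e6, Matrix.one_apply]
      rw [e5]
      by_cases haa : a = a'
      · subst haa
        rw [if_pos rfl, mul_one, sg_mul_self]
      · rw [if_neg haa, if_neg (Ne.symm haa), mul_zero]
    intro b a
    rw [Matrix.inv_eq_right_inv e1]
    rfl
  refine ⟨M, hbad, hMpos, fun b a => ?_, ?_⟩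
  · have h1 := sigma_pos hbad.1 b a
    rw [hinv] at h1
    have h2 := c2 a b
    have h3 : (stt M).1 b a = sigma (chiN (cf M)) b a := rfl
    rw [h3]
    refine sg_eq_of_mul_pos h1 ?_
    rw [sg_beq, sg_beq]
    have e3 := sg_mul_self (s (π (cb b)))
    have e4 := sg_mul_self (s (π (ra a)))
    calc (0 : ℝ) < _ := h2
      _ = (sg (s (π (cb b))) * sg (s (π (cb b)))) * (sg (s (π (ra a))) * sg (s (π (ra a)))) *
          (sg (cs v ((gE π).erase (π (cb b))) (π (cb b)) ==
            cs v ((gE π).erase (π (cb b))) (π (ra a))) * (B * C⁻¹) a b) := by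
            rw [e3, e4, one_mul, one_mul]
      _ = _ := by ring
  · have h1 := det_pos hbad.1
    have h3 : (stt M).2 = chiN (cf M) 4032 := rfl
    rw [h3]
    -- the determinant of `M`
    have e1 : (Matrix.of M).det * B.det = (∏ i, sg (s (π (ra i)))) * (∏ i, sg (s (π (cb i)))) *
        C.det := by
      have e2 : (Matrix.of M)ᵀ = Matrix.of fun b a : Fin 6 => sg (s (π (cb b))) *
          ((Matrix.of fun b a : Fin 6 => sg (s (π (ra a))) * (C * B⁻¹) b a) b a) := by
        ext b a
        rw [Matrix.transpose_apply, Matrix.of_apply, Matrix.of_apply, Matrix.of_apply, hM]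
        ring
      have e3 : (Matrix.of fun b a : Fin 6 => sg (s (π (ra a))) * (C * B⁻¹) b a).det =
          (∏ i, sg (s (π (ra i)))) * (C * B⁻¹).det := Matrix.det_mul_row _ _
      rw [← Matrix.det_transpose, e2, Matrix.det_mul_column, e3, Matrix.det_mul]
      have e4 : (B⁻¹).det * B.det = 1 := by
        rw [← Matrix.det_mul, hB1, Matrix.det_one]
      calc _ = (∏ i, sg (s (π (cb i)))) * ((∏ i, sg (s (π (ra i)))) * C.det) *
          ((B⁻¹).det * B.det) := by ring
        _ = _ := by rw [e4]; ring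
    have e5 : (∏ j, sg (s j)) = (∏ i, sg (s (π (ra i)))) * ∏ i, sg (s (π (cb i))) := by
      rw [← Equiv.prod_comp π fun j => sg (s j)]
      exact Fin.prod_univ_add (a := 6) (b := 6) fun j => sg (s (π j))
    have e6 : D v (fun b => π (cb b)) = C.det := by rw [hC]; rfl
    have e7 : D v (fun a => π (ra a)) = B.det := by rw [hB]; rfl
    rw [e5, e6, e7]
    have h4 : 0 < B.det * B.det := mul_self_pos.2 hBd
    calc (0 : ℝ) < (sg (chiN (cf M) 4032) * (Matrix.of M).det) * (B.det * B.det) := mul_pos h1 h4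
      _ = sg (chiN (cf M) 4032) * (((Matrix.of M).det * B.det) * B.det) := by ring
      _ = _ := by rw [e1]; ring

end Pool.Agent.H26.Z12
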