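import Pool.Agent.H28.Z12.CoverDefs

/-!
Kernel evaluation: the clause 'the basis given by the permutation `P` is simplicial with the signs
`S` and its chart has the pattern `(m, w)`' (MP_1e71f9_co).
-/

set_option autoImplicit false

namespace Pool.Agent.H26.Z12

/-- Parities of the numbers below 4096. -/
def PT : Nat := nat_lit 0x6996966996696996966969966996966996696996699696696996966996696996966969966996966969969669966969966996966996696996966969966996966996696996699696696996966996696996699696699669699696696996699696696996966996696996966969966996966996696996699696696996966996696996966969966996966969969669966969966996966996696996966969966996966969969669966969969669699669969669966969966996966969969669966969966996966996696996966969966996966996696996699696696996966996696996966969966996966969969669966969966996966996696996966969966996966996696996699696696996966996696996699696699669699696696996699696696996966996696996966969966996966996696996699696696996966996696996699696699669699696696996699696699669699669969669699696699669699696696996699696696996966996696996699696699669699696696996699696696996966996696996966969966996966996696996699696696996966996696996966969966996966969969669966969966996966996696996966969966996966996696996699696696996966996696996699696699669699696696996699696696996966996696996966969966996966996696996699696696996966996696996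

/-- Parity. -/
def pty (A : Nat) : Nat := Nat.land (Nat.shiftRight PT A) (nat_lit 1)

/-- Element `x` of the permutation `P` (four bits each). -/
def nbl (P x : Nat) : Nat := Nat.land (Nat.shiftRight P (Nat.mul (nat_lit 4) x)) (nat_lit 15)

/-- Bit. -/
def bt (A x : Nat) : Nat := Nat.land (Nat.shiftRight A x) (nat_lit 1)

/-- The mask of the elements `a, .., a + n - 1` of `P`. -/
noncomputable def msk (P a n : Nat) : Nat :=
  @Nat.rec (fun _ => Nat) (nat_lit 0) (fun x ih => Nat.lor ih (Nat.shiftLeft (nat_lit 1) (nbl P (Nat.add a x)))) n

/-- `P` is a permutation. -/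
noncomputable def okP (P : Nat) : Bool := Nat.beq (msk P (nat_lit 0) (nat_lit 12)) (nat_lit 4095)

/-- The false literal of the sign of the basis `B` with value `b`. -/
def lv (B b : Nat) : Nat := Nat.shiftLeft (nat_lit 1) (Nat.add B (Nat.mul (nat_lit 4096) (Nat.land b (nat_lit 1))))

/-- The literal of the basis `A + y`: `x` the element of the row, `c` the constant. -/
def l1 (A y S c : Nat) : Nat :=
  lv (Nat.lor A (Nat.shiftLeft (nat_lit 1) y))
    (Nat.xor c (Nat.xor (pty (Nat.shiftRight A (Nat.succ y))) (bt S y)))

/-- The literals of the row `x`: all bases `F - x + y`. -/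
noncomputable def rowL (P A S c : Nat) (n : Nat) : Nat :=
  @Nat.rec (fun _ => Nat) (nat_lit 0) (fun b ih => Nat.lor ih (l1 A (nbl P (Nat.add (nat_lit 6) b)) S c)) n

/-- The literals of the row with the element `x`. -/
noncomputable def rowX (P F S d x : Nat) : Nat :=
  rowL P (Nat.xor F (Nat.shiftLeft (nat_lit 1) x)) S
    (Nat.xor d (Nat.xor (pty (Nat.shiftRight (Nat.xor F (Nat.shiftLeft (nat_lit 1) x)) (Nat.succ x))) (bt S x))) (nat_lit 6)

/-- All literals of the first basis. -/
noncomputable def simL (P F S d : Nat) (n : Nat) : Nat :=
  @Nat.rec (fun _ => Nat) (lv F d) (fun a ih => Nat.lor ih (rowX P F S d (nbl P a))) n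

/-- The literals of the second basis for the column `b`, bits `6 b + a` of `(m, w)`. -/
noncomputable def colL (P A S c m w : Nat) (n : Nat) : Nat :=
  @Nat.rec (fun _ => Nat) (nat_lit 0) (fun a ih => Nat.lor ih
    (@Bool.rec (fun _ => Nat) (nat_lit 0)
      (l1 A (nbl P a) S (Nat.xor c (bt w a))) (Nat.beq (bt m a) (nat_lit 1)))) n

/-- The literals of the second basis for the column with the element `y`. -/
noncomputable def colX (P G S d y m w : Nat) : Nat :=
  colL P (Nat.xor G (Nat.shiftLeft (nat_lit 1) y)) S
    (Nat.xor (nat_lit 1) (Nat.xor d (Nat.xor (pty (Nat.shiftRight (Nat.xor G (Nat.shiftLeft (nat_lit 1) y)) (Nat.succ y))) (bt S y)))) m w (nat_lit 6)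

/-- All literals of the second basis. -/
noncomputable def patL (P G S d m w : Nat) (n : Nat) : Nat :=
  @Nat.rec (fun _ => Nat) (lv G d) (fun b ih => Nat.lor ih
    (colX P G S d (nbl P (Nat.add (nat_lit 6) b)) (Nat.shiftRight m (Nat.mul (nat_lit 6) b))
      (Nat.shiftRight w (Nat.mul (nat_lit 6) b)))) n

/-- The clause. -/
noncomputable def chC (P F G S d e m w : Nat) : Nat :=
  Nat.lor (simL P F S d (nat_lit 6)) (patL P G S e m w (nat_lit 6))

/-- The entries of a table of clauses: `P` 48 bits, `S` 12 bits, `d`, `e` one bit each, two bits
unused, `m` 40 bits, `w` 40 bits. -/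
def yR (Y e : Nat) : Nat := Nat.land (Nat.shiftRight Y (Nat.mul (nat_lit 144) e)) (nat_lit 22300745198530623141535718272648361505980415)
def yP (R : Nat) : Nat := Nat.land R (nat_lit 281474976710655)
def yS (R : Nat) : Nat := Nat.land (Nat.shiftRight R (nat_lit 48)) (nat_lit 4095)
def yD (R : Nat) : Nat := bt R (nat_lit 60)
def yE (R : Nat) : Nat := bt R (nat_lit 61)
def yM (R : Nat) : Nat := Nat.land (Nat.shiftRight R (nat_lit 64)) (nat_lit 1099511627775)
def yW (R : Nat) : Nat := Nat.land (Nat.shiftRight R (nat_lit 104)) (nat_lit 1099511627775)

/-- The clause of an entry. -/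
noncomputable def chR (R : Nat) : Nat :=
  chC (yP R) (msk (yP R) (nat_lit 0) (nat_lit 6)) (msk (yP R) (nat_lit 6) (nat_lit 6)) (yS R) (yD R) (yE R) (yM R) (yW R)

end Pool.Agent.H26.Z12
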