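import Mathlib
import Pool.Agent.H26.Z12.ChartAt
import Pool.Agent.H26.Z12.ChartDefs

/-!
Soundness of the clauses of other charts (MP_1e71f9_co).
-/

set_option autoImplicit false

namespace Pool.Agent.H26.Z12

open Finset Matrix Pool.Agent.H67.Nu Pool.Agent.H77.Z12 Pool.Agent.H28.Z12 Pool.Agent.H13.Z12

/-! ### Bits -/

theorem bt_eq (A x : ℕ) : bt A x = (A.testBit x).toNat := by
  show (A >>> x) &&& 1 = _
  rw [Nat.testBit, Nat.and_comm (A >>> x) 1]
  have h : (1 : ℕ) &&& (A >>> x) < 2 := Nat.lt_succ_of_le Nat.and_le_left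
  rcases Nat.lt_succ_iff_lt_or_eq.1 h with h | h
  · have h0 : (1 : ℕ) &&& (A >>> x) = 0 := by omega
    rw [h0]; rfl
  · rw [h]; rfl

theorem nbl_lt (P x : ℕ) : nbl P x < 16 := by
  show (P >>> (4 * x)) &&& 15 < 16
  exact Nat.lt_succ_of_le Nat.and_le_right

theorem tb1 (x i : ℕ) : (Nat.shiftLeft 1 x).testBit i = decide (x = i) := by
  have e : Nat.shiftLeft 1 x = 2 ^ x := by
    show 1 <<< x = _
    rw [Nat.shiftLeft_eq, one_mul]
  rw [e, Nat.testBit_two_pow]

theorem sl1 (x : ℕ) : Nat.shiftLeft 1 x = 2 ^ x := by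
  show 1 <<< x = _
  rw [Nat.shiftLeft_eq, one_mul]

theorem msk_succ (P a n : ℕ) : msk P a (n + 1) = msk P a n ||| 2 ^ nbl P (a + n) := by
  show Nat.lor (msk P a n) (Nat.shiftLeft 1 (nbl P (a + n))) = _
  rw [sl1]
  rfl

theorem msk_zero (P a : ℕ) : msk P a 0 = 0 := rfl

theorem msk_tb (P a : ℕ) : ∀ n i, (msk P a n).testBit i = true ↔ ∃ x < n, nbl P (a + x) = i
  | 0, i => by
    rw [msk_zero, Nat.zero_testBit]
    constructor
    · intro h; exact absurd h (by decide)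
    · rintro ⟨x, hx, -⟩; exact absurd hx (Nat.not_lt_zero x)
  | n + 1, i => by
    rw [msk_succ, Nat.testBit_or, Bool.or_eq_true, Nat.testBit_two_pow, decide_eq_true_iff,
      msk_tb P a n i]
    constructor
    · rintro (⟨x, hx, h⟩ | h)
      · exact ⟨x, by omega, h⟩
      · exact ⟨n, by omega, h⟩
    · rintro ⟨x, hx, h⟩
      rcases Nat.lt_succ_iff_lt_or_eq.1 hx with hx | rfl
      · exact Or.inl ⟨x, hx, h⟩
      · exact Or.inr h

theorem okP_spec {P : ℕ} (h : okP P = true) : (∀ x < 12, nbl P x < 12) ∧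
    ∀ i < 12, ∃ x < 12, nbl P x = i := by
  have h1 : msk P 0 12 = 4095 := Nat.eq_of_beq_eq_true h
  constructor
  · intro x hx
    have h2 : (msk P 0 12).testBit (nbl P x) = true := by
      rw [msk_tb]
      exact ⟨x, hx, by rw [Nat.zero_add]⟩
    rw [h1] at h2
    by_contra h3
    have h4 : (4095 : ℕ) < 2 ^ nbl P x :=
      lt_of_lt_of_le (by norm_num : (4095 : ℕ) < 2 ^ 12)
        (Nat.pow_le_pow_right (by norm_num) (not_lt.1 h3))
    rw [Nat.testBit_lt_two_pow h4] at h2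
    exact absurd h2 (by decide)
  · intro i hi
    have h2 : (msk P 0 12).testBit i = true := by
      rw [h1]
      interval_cases i <;> decide
    obtain ⟨x, hx, h3⟩ := (msk_tb P 0 12 i).1 h2
    rw [Nat.zero_add] at h3
    exact ⟨x, hx, h3⟩

/-- The permutation. -/
theorem exists_perm_of {P : ℕ} (h : okP P = true) :
    ∃ π : Equiv.Perm (Fin 12), ∀ x : Fin 12, (π x : ℕ) = nbl P x := by
  obtain ⟨h1, h2⟩ := okP_spec h
  refine ⟨Equiv.ofBijective (fun x : Fin 12 => (⟨nbl P x, h1 x x.2⟩ : Fin 12)) ?_, fun x => rfl⟩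
  rw [← Finite.surjective_iff_bijective]
  intro i
  obtain ⟨x, hx, e⟩ := h2 i i.2
  exact ⟨⟨x, hx⟩, Fin.ext e⟩

/-! ### Parities -/

theorem pty_eq' : ∀ a < 64, ∀ b < 64, pty (64 * a + b) =
    (xorr 12 fun i => (64 * a + b).testBit i).toNat := by decide +kernel

theorem pty_eq (A : ℕ) (hA : A < 4096) : pty A = (xorr 12 fun i => A.testBit i).toNat := by
  have h := pty_eq' (A / 64) (by omega) (A % 64) (by omega)
  have e : 64 * (A / 64) + A % 64 = A := by omega
  rw [e] at h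
  exact h

theorem xorr_congr {n : ℕ} {f g : ℕ → Bool} (h : ∀ i < n, f i = g i) : xorr n f = xorr n g := by
  induction n with
  | zero => rfl
  | succ n ih =>
    rw [xorr, xorr, h n (by omega), ih fun i hi => h i (by omega)]

theorem xorr_shift (f : ℕ → Bool) (x : ℕ) : ∀ n, (∀ i, n ≤ i → f i = false) →
    xorr n (fun i => f (i + (x + 1))) = xorr n fun i => f i && decide (x < i) := by
  have key : ∀ n, xorr n (fun i => f (i + (x + 1))) =
      xor (xorr (n + (x + 1)) fun i => f i && decide (x < i)) (xorr (x + 1) fun i => f i && decide (x < i)) := by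
    intro n
    induction n with
    | zero =>
      rw [Nat.zero_add]
      simp [xorr]
    | succ n ih =>
      have e : n + 1 + (x + 1) = (n + (x + 1)) + 1 := by omega
      rw [e, xorr, xorr, ih, decide_eq_true (by omega : x < n + (x + 1)), Bool.and_true]
      cases f (n + (x + 1)) <;> simp
  have h0 : xorr (x + 1) (fun i => f i && decide (x < i)) = false := by
    have : ∀ n, (∀ i < n, (f i && decide (x < i)) = false) →
        xorr n (fun i => f i && decide (x < i)) = false := by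
      intro n
      induction n with
      | zero => intro _; rfl
      | succ n ih =>
        intro h
        rw [xorr, h n (by omega), ih fun i hi => h i (by omega)]
        rfl
    refine this _ fun i hi => ?_
    rw [decide_eq_false (by omega), Bool.and_false]
  intro n hn
  rw [key, h0, Bool.xor_false]
  have h1 : ∀ m, xorr (n + m) (fun i => f i && decide (x < i)) =
      xorr n fun i => f i && decide (x < i) := by
    intro m
    induction m with
    | zero => rfl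
    | succ m ih =>
      rw [← Nat.add_assoc, xorr, ih, hn (n + m) (by omega), Bool.false_and, Bool.false_xor]
  exact h1 _

theorem pty_shift {A x : ℕ} (hA : A < 4096) : pty (Nat.shiftRight A (Nat.succ x)) = (ipm A x).toNat := by
  have e : Nat.shiftRight A (Nat.succ x) = A >>> (x + 1) := rfl
  have h1 : A >>> (x + 1) ≤ A := by
    rw [Nat.shiftRight_eq_div_pow]
    exact Nat.div_le_self _ _
  rw [e, pty_eq _ (lt_of_le_of_lt h1 hA), ipm]
  congr 1
  have h2 : ∀ i, 12 ≤ i → A.testBit i = false := fun i hi =>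
    Nat.testBit_lt_two_pow (lt_of_lt_of_le (by norm_num; exact hA : A < 2 ^ 12)
      (Nat.pow_le_pow_right (by norm_num) hi))
  rw [← xorr_shift (fun i => A.testBit i) x 12 h2]
  refine xorr_congr fun i _ => ?_
  rw [Nat.testBit_shiftRight, Nat.add_comm]

/-! ### Literals -/

variable {χ T : ℕ → Bool}

theorem Fa_left {a b : ℕ} (h : Fa χ T (a ||| b)) : Fa χ T a := fun i hi =>
  h i (by rw [Nat.testBit_or, hi, Bool.true_or])

theorem Fa_right {a b : ℕ} (h : Fa χ T (a ||| b)) : Fa χ T b := fun i hi =>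
  h i (by rw [Nat.testBit_or, hi, Bool.or_true])

theorem fa_lv {B b : ℕ} (hB : B < 4096) (h : Fa χ T (lv B b)) : χ B = b.testBit 0 := by
  have e : lv B b = 2 ^ (B + 4096 * (b &&& 1)) := sl1 _
  rw [e] at h
  have h2 := h _ (by rw [Nat.testBit_two_pow, decide_eq_true rfl])
  have h3 : b &&& 1 = (b.testBit 0).toNat := by
    have := bt_eq b 0
    exact this
  rw [h3] at h2
  by_contra hne
  apply h2
  cases hb : b.testBit 0
  · rw [hb] at hne
    rw [Bool.not_eq_false] at hne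
    exact Or.inl ⟨by show B + 4096 * 0 < 4096; omega, hne⟩
  · rw [hb] at hne
    rw [Bool.not_eq_true] at hne
    refine Or.inr (Or.inl ⟨?_, ?_, ?_⟩)
    · show 4096 ≤ B + 4096 * 1
      omega
    · show B + 4096 * 1 < 8192
      omega
    · show χ (B + 4096 * 1 - 4096) = false
      have e2 : B + 4096 * 1 - 4096 = B := by omega
      rw [e2]
      exact hne

theorem tb0_xor (a b : ℕ) : (Nat.xor a b).testBit 0 = xor (a.testBit 0) (b.testBit 0) :=
  Nat.testBit_xor a b 0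

theorem tb0_toNat (b : Bool) : (b.toNat).testBit 0 = b := by cases b <;> decide

/-- Reading a literal. -/
theorem fa_l1 {A y S c : ℕ} (hA : A < 4096) (hy : y < 12) (h : Fa χ T (l1 A y S c)) :
    χ (A ||| 2 ^ y) = xor (c.testBit 0) (xor (ipm A y) (S.testBit y)) := by
  rw [l1, pty_shift hA, bt_eq, sl1] at h
  have h1 : Nat.lor A (2 ^ y) < 4096 := by
    have : A ||| 2 ^ y < 2 ^ 12 := Nat.or_lt_two_pow hA (Nat.pow_lt_pow_right (by norm_num) hy)
    exact this
  have h2 := fa_lv h1 h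
  rw [tb0_xor, tb0_xor, tb0_toNat, tb0_toNat] at h2
  exact h2

theorem fa_rowL {P A S c : ℕ} : ∀ {n : ℕ}, Fa χ T (rowL P A S c n) → ∀ b < n,
    Fa χ T (l1 A (nbl P (6 + b)) S c)
  | 0, _, b, hb => absurd hb (Nat.not_lt_zero b)
  | n + 1, h, b, hb => by
    have h' : Fa χ T (rowL P A S c n ||| l1 A (nbl P (6 + n)) S c) := h
    rcases Nat.lt_succ_iff_lt_or_eq.1 hb with hb | rfl
    · exact fa_rowL (Fa_left h') b hb
    · exact Fa_right h'

theorem fa_simL {P F S d : ℕ} : ∀ {n : ℕ}, Fa χ T (simL P F S d n) → Fa χ T (lv F d) ∧ ∀ a < n,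
    Fa χ T (rowX P F S d (nbl P a))
  | 0, h => ⟨h, fun a ha => absurd ha (Nat.not_lt_zero a)⟩
  | n + 1, h => by
    have h' : Fa χ T (simL P F S d n ||| rowX P F S d (nbl P n)) := h
    refine ⟨(fa_simL (Fa_left h')).1, fun a ha => ?_⟩
    rcases Nat.lt_succ_iff_lt_or_eq.1 ha with ha | rfl
    · exact (fa_simL (Fa_left h')).2 a ha
    · exact Fa_right h'

theorem fa_colL {P A S c m w : ℕ} : ∀ {n : ℕ}, Fa χ T (colL P A S c m w n) → ∀ a < n,
    m.testBit a = true → Fa χ T (l1 A (nbl P a) S (Nat.xor c (bt w a)))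
  | 0, _, b, hb, _ => absurd hb (Nat.not_lt_zero b)
  | n + 1, h, b, hb, hm => by
    have h' : Fa χ T (colL P A S c m w n ||| @Bool.rec (fun _ => ℕ) 0
      (l1 A (nbl P n) S (Nat.xor c (bt w n))) (Nat.beq (bt m n) 1)) := h
    rcases Nat.lt_succ_iff_lt_or_eq.1 hb with hb | rfl
    · exact fa_colL (Fa_left h') b hb hm
    · have h2 := Fa_right h'
      have e : Nat.beq (bt m b) 1 = true := by
        rw [bt_eq, hm]
        rfl
      rw [e] at h2
      exact h2

theorem fa_patL {P G S d m w : ℕ} : ∀ {n : ℕ}, Fa χ T (patL P G S d m w n) → Fa χ T (lv G d) ∧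
    ∀ b < n, Fa χ T (colX P G S d (nbl P (6 + b)) (m >>> (6 * b)) (w >>> (6 * b)))
  | 0, h => ⟨h, fun a ha => absurd ha (Nat.not_lt_zero a)⟩
  | n + 1, h => by
    have h' : Fa χ T (patL P G S d m w n |||
      colX P G S d (nbl P (6 + n)) (m >>> (6 * n)) (w >>> (6 * n))) := h
    refine ⟨(fa_patL (Fa_left h')).1, fun a ha => ?_⟩
    rcases Nat.lt_succ_iff_lt_or_eq.1 ha with ha | rfl
    · exact (fa_patL (Fa_left h')).2 a ha
    · exact Fa_right h'

/-! ### Sets -/

theorem tb_fE {P : ℕ} {π : Equiv.Perm (Fin 12)} (hπ : ∀ x : Fin 12, (π x : ℕ) = nbl P x)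
    (i : Fin 12) : (msk P 0 6).testBit i = true ↔ i ∈ fE π := by
  rw [msk_tb, fE, Finset.mem_image]
  constructor
  · rintro ⟨x, hx, h⟩
    refine ⟨⟨x, hx⟩, Finset.mem_univ _, Fin.ext ?_⟩
    rw [hπ, ra_lt, ← h, Nat.zero_add]
  · rintro ⟨a, -, rfl⟩
    exact ⟨a, a.2, by rw [hπ, ra_lt, Nat.zero_add]⟩

theorem tb_gE {P : ℕ} {π : Equiv.Perm (Fin 12)} (hπ : ∀ x : Fin 12, (π x : ℕ) = nbl P x)
    (i : Fin 12) : (msk P 6 6).testBit i = true ↔ i ∈ gE π := by
  rw [msk_tb, gE, Finset.mem_image]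
  constructor
  · rintro ⟨x, hx, h⟩
    refine ⟨⟨x, hx⟩, Finset.mem_univ _, Fin.ext ?_⟩
    rw [hπ, cb_val, ← h]
  · rintro ⟨a, -, rfl⟩
    exact ⟨a, a.2, by rw [hπ, cb_val]⟩

theorem toSet_erase {F : ℕ} {E : Finset (Fin 12)} (h : ∀ i : Fin 12, F.testBit i = true ↔ i ∈ E)
    {x : Fin 12} (hx : x ∈ E) : toSet (F ^^^ 2 ^ (x : ℕ)) = E.erase x := by
  have e : toSet F = E := by
    ext i
    rw [mem_toSet, h]
  rw [toSet_xor _ _ ((h x).2 hx), e]

theorem xor_or {F : ℕ} {x : ℕ} (hx : F.testBit x = true) : (F ^^^ 2 ^ x) ||| 2 ^ x = F := by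
  apply Nat.eq_of_testBit_eq
  intro i
  rw [testBit_or_pow, testBit_xor_pow]
  by_cases h : x = i
  · subst h; rw [hx, decide_eq_true rfl]; rfl
  · rw [decide_eq_false h, Bool.xor_false, Bool.or_false]

theorem msk_lt {P a n : ℕ} (h : ∀ x < n, nbl P (a + x) < 12) : msk P a n < 4096 := by
  have e : (4096 : ℕ) = 2 ^ 12 := by norm_num
  rw [e]
  apply Nat.lt_pow_two_of_testBit
  intro i hi
  by_contra hc
  rw [Bool.not_eq_false, msk_tb] at hc
  obtain ⟨x, hx, h2⟩ := hc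
  have := h x hx
  omega

theorem xor_lt {F x : ℕ} (hF : F < 4096) (hx : x < 12) : F ^^^ 2 ^ x < 4096 := by
  have : F ^^^ 2 ^ x < 2 ^ 12 := Nat.xor_lt_two_pow hF (Nat.pow_lt_pow_right (by norm_num) hx)
  exact this

attribute [local irreducible] chiN topN sigma

/-- **A clause of another chart.** -/
theorem cl_chC {M : Fin 6 → Fin 6 → ℝ} (hb : Bad (cf M)) {P S d e m w : ℕ} (hP : okP P = true)
    (h36 : m.testBit 36 = false) (hg : Good m w) :
    Cl (chiN (cf M)) T (chC P (msk P 0 6) (msk P 6 6) S d e m w) := by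
  rcases Cl_or_Fa (chiN (cf M)) T (chC P (msk P 0 6) (msk P 6 6) S d e m w) with h | h
  · exact h
  exfalso
  obtain ⟨π, hπ⟩ := exists_perm_of hP
  obtain ⟨hlt, -⟩ := okP_spec hP
  set F := msk P 0 6 with hF
  set G := msk P 6 6 with hG
  have hF4 : F < 4096 := msk_lt fun x hx => by rw [Nat.zero_add]; exact hlt x (by omega)
  have hG4 : G < 4096 := msk_lt fun x hx => hlt (6 + x) (by omega)
  have hfe : ∀ a : Fin 6, nbl P a = (π (ra a) : ℕ) := fun a => by rw [hπ, ra_lt]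
  have hge : ∀ b : Fin 6, nbl P (6 + b) = (π (cb b) : ℕ) := fun b => by rw [hπ, cb_val]
  have hxF : ∀ a : Fin 6, π (ra a) ∈ fE π := fun a => Finset.mem_image_of_mem _ (Finset.mem_univ a)
  have hyG : ∀ b : Fin 6, π (cb b) ∈ gE π := fun b => Finset.mem_image_of_mem _ (Finset.mem_univ b)
  have h1 : Fa (chiN (cf M)) T (simL P F S d 6 ||| patL P G S e m w 6) := h
  obtain ⟨fF, f1⟩ := fa_simL (Fa_left h1)
  obtain ⟨fG, f2⟩ := fa_patL (Fa_right h1)
  have vF := fa_lv hF4 fF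
  have vG := fa_lv hG4 fG
  -- the first basis
  have k1 : ∀ a b : Fin 6, (cs (cf M) ((fE π).erase (π (ra a))) (π (ra a)) ==
      cs (cf M) ((fE π).erase (π (ra a))) (π (cb b))) =
        (S.testBit (π (ra a)) == S.testBit (π (cb b))) := by
    intro a b
    have hA : F ^^^ 2 ^ (π (ra a) : ℕ) < 4096 := xor_lt hF4 (π (ra a)).2
    have h2 : Fa (chiN (cf M)) T (rowX P F S d (π (ra a) : ℕ)) := by
      rw [← hfe]
      exact f1 a a.2
    rw [rowX, sl1] at h2
    have h3 := fa_l1 (A := Nat.xor F (2 ^ (π (ra a) : ℕ))) hA (by rw [hge]; exact (π (cb b)).2)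
      (fa_rowL h2 b b.2)
    rw [tb0_xor, tb0_xor, bt_eq, tb0_toNat, pty_shift (A := Nat.xor F (2 ^ (π (ra a) : ℕ))) hA,
      tb0_toNat, hge, ← vF] at h3
    rw [← toSet_erase (tb_fE hπ) (hxF a), cs_toSet, cs_toSet, csm, csm,
      xor_or ((tb_fE hπ _).2 (hxF a))]
    have h4 : chiN (cf M) (F ^^^ 2 ^ (π (ra a) : ℕ) ||| 2 ^ (π (cb b) : ℕ)) =
        xor (xor (chiN (cf M) F) (xor (ipm (F ^^^ 2 ^ (π (ra a) : ℕ)) (π (ra a)))
          (S.testBit (π (ra a))))) (xor (ipm (F ^^^ 2 ^ (π (ra a) : ℕ)) (π (cb b)))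
            (S.testBit (π (cb b)))) := h3
    rw [← hF, h4]
    cases chiN (cf M) F <;> cases ipm (F ^^^ 2 ^ (π (ra a) : ℕ)) (π (ra a)) <;>
      cases ipm (F ^^^ 2 ^ (π (ra a) : ℕ)) (π (cb b)) <;> cases S.testBit (π (ra a)) <;>
      cases S.testBit (π (cb b)) <;> rfl
  obtain ⟨M', hb', hM', hst, -⟩ := chart_at hb π (fun x => S.testBit x) k1
  refine hg M' hb' hM' ⟨fun k j hkj => ?_, fun hc => ?_⟩
  · rw [hst k j]
    have hA : G ^^^ 2 ^ (π (cb k) : ℕ) < 4096 := xor_lt hG4 (π (cb k)).2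
    have h2 : Fa (chiN (cf M)) T (colX P G S e (π (cb k) : ℕ) (m >>> (6 * (k : ℕ)))
        (w >>> (6 * (k : ℕ)))) := by
      rw [← hge]
      exact f2 k k.2
    rw [colX, sl1] at h2
    have hmk : (m >>> (6 * (k : ℕ))).testBit j = true := by
      rw [Nat.testBit_shiftRight]
      exact hkj
    have h3 := fa_l1 (A := Nat.xor G (2 ^ (π (cb k) : ℕ))) hA (by rw [hfe]; exact (π (ra j)).2)
      (fa_colL h2 j j.2 hmk)
    rw [tb0_xor, tb0_xor, tb0_xor, tb0_xor, bt_eq, tb0_toNat, bt_eq, tb0_toNat,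
      pty_shift (A := Nat.xor G (2 ^ (π (cb k) : ℕ))) hA, tb0_toNat, hfe, ← vG,
      Nat.testBit_shiftRight] at h3
    rw [← toSet_erase (tb_gE hπ) (hyG k), cs_toSet, cs_toSet, csm, csm,
      xor_or ((tb_gE hπ _).2 (hyG k))]
    have h4 : chiN (cf M) (G ^^^ 2 ^ (π (cb k) : ℕ) ||| 2 ^ (π (ra j) : ℕ)) =
        xor (xor (xor true (xor (chiN (cf M) G) (xor (ipm (G ^^^ 2 ^ (π (cb k) : ℕ)) (π (cb k)))
          (S.testBit (π (cb k)))))) (w.testBit (6 * (k : ℕ) + j)))
          (xor (ipm (G ^^^ 2 ^ (π (cb k) : ℕ)) (π (ra j))) (S.testBit (π (ra j)))) := h3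
    rw [← hG, h4]
    cases chiN (cf M) G <;> cases ipm (G ^^^ 2 ^ (π (cb k) : ℕ)) (π (cb k)) <;>
      cases ipm (G ^^^ 2 ^ (π (cb k) : ℕ)) (π (ra j)) <;> cases S.testBit (π (ra j)) <;>
      cases S.testBit (π (cb k)) <;> cases w.testBit (6 * (k : ℕ) + j) <;> rfl
  · rw [h36] at hc
    exact absurd hc (by decide)

/-- **A clause of another chart**, from a table. -/
theorem cl_chR {M : Fin 6 → Fin 6 → ℝ} (hb : Bad (cf M)) {R : ℕ} (hP : okP (yP R) = true)
    (h36 : (yM R).testBit 36 = false) (hg : Good (yM R) (yW R)) :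
    Cl (chiN (cf M)) T (chR R) := cl_chC hb hP h36 hg

end Pool.Agent.H26.Z12
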