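import Mathlib
import Pool.Agent.H26.Z12.ChartCl

/-!
The chart of maximal rank (for example with the largest number of positive entries of the inverse
matrix), and refutations with clauses of other charts (MP_1e71f9_co).
-/

set_option autoImplicit false

namespace Pool.Agent.H26.Z12

open Finset Matrix Pool.Agent.H67.Nu Pool.Agent.H77.Z12 Pool.Agent.H28.Z12 Pool.Agent.H13.Z12
  Pool.Agent.H28.Z12.Cov

/-! ### Refutations of configurations -/

/-- The pattern `(m, w)` with the further signs `E` is excluded for bad configurations. -/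
def SRef (m w : ℕ) (E : List (ℕ × Bool)) : Prop := ∀ M : Fin 6 → Fin 6 → ℝ, Bad (cf M) →
  (∀ i c, 0 < M i c) → SatC (chiN (cf M)) m w → (∀ p ∈ E, chiN (cf M) p.1 = p.2) → False

/-- Refuted with the further signs `E`, the images `X` of excluded patterns and the clauses `Y` of
other charts. -/
def RefXY (m w : ℕ) (E : List (ℕ × Bool)) (X nX Y nY : ℕ) : Prop :=
  ∀ χ T : ℕ → Bool, Model χ T → χ 63 = true → Simp χ 63 4095 → SatC χ m w →
    (∀ p ∈ E, χ p.1 = p.2) → (∀ e < nX, ¬ SatC χ (ngM X e) (ngV X e)) →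
    (∀ e < nY, Cl χ T (chR (yR Y e))) → False

/-- The clauses `a, .., a + n - 1` of the table `off, lits` are the clauses of `Y`. -/
noncomputable def tabY (Y off lits a n : ℕ) : Bool := (List.range n).all fun e =>
  Nat.beq (lmask off lits (a + e)) (chR (yR Y e))

/-- **A pattern is refuted**, from a chain of blocks. -/
theorem refXY_of {m w U off lits : ℕ} {E : List (ℕ × Bool)} {X nX Y nY : ℕ}
    (hm : m.testBit 36 = true) (hE : (E.all fun p => decide (p.1 < 4096)) = true)
    (hU : mkU m w ||| chartU ||| mkE E = U) (hX : tabX X off lits nX = true)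
    (hY : tabY Y off lits nX nY = true)
    (h : ∀ χ T : ℕ → Bool, Model χ T → Simp χ 63 4095 → St χ T U off lits (nX + nY) → False) :
    RefXY m w E X nX Y nY := by
  intro χ T hM h63 hS hs hE' hX' hY'
  refine h χ T hM hS ⟨?_, ?_⟩
  · rw [← hU]
    refine Fa_or (Fa_or (fa_mkU h63 (hs.2 hm) hs.1) (fa_chartU h63 hS)) (fa_mkE ?_ hE')
    intro p hp
    exact of_decide_eq_true (List.all_eq_true.1 hE p hp)
  · intro i hi
    by_cases h1 : i < nX
    · rw [Nat.eq_of_beq_eq_true (List.all_eq_true.1 hX i (List.mem_range.2 h1))]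
      exact cl_negC (hX' i h1)
    · have h2 : i - nX < nY := by omega
      have h3 := Nat.eq_of_beq_eq_true (List.all_eq_true.1 hY (i - nX) (List.mem_range.2 h2))
      have e : nX + (i - nX) = i := by omega
      rw [e] at h3
      rw [h3]
      exact hY' _ h2

/-- The patterns of the clauses of `Y` are excluded. -/
def YOK (Y nY : ℕ) : Prop := ∀ e < nY, okP (yP (yR Y e)) = true ∧
  (yM (yR Y e)).testBit 36 = false ∧ Good (yM (yR Y e)) (yW (yR Y e))

theorem yOK_zero (Y : ℕ) : YOK Y 0 := fun _ he => absurd he (Nat.not_lt_zero _)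

section

attribute [local irreducible] chiN topN sigma

theorem sref_of_refXY {m w X nX Y nY : ℕ} {E : List (ℕ × Bool)} (h : RefXY m w E X nX Y nY)
    (hx : ExtOK X nX) (hy : YOK Y nY) : SRef m w E := by
  intro M hb hM hs hE
  obtain ⟨h63, hS, hMod⟩ := chart_facts hb hM
  exact h _ _ hMod h63 hS hs hE (hx M hb hM) fun e he =>
    cl_chR hb (hy e he).1 (hy e he).2.1 (hy e he).2.2

theorem sref_of_refX {m w X nX : ℕ} {E : List (ℕ × Bool)} (h : RefX m w E X nX)
    (hx : ExtOK X nX) : SRef m w E := by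
  intro M hb hM hs hE
  obtain ⟨h63, hS, hMod⟩ := chart_facts hb hM
  exact h _ _ hMod h63 hS hs hE (hx M hb hM)

theorem good_of_sref {m w : ℕ} (h : SRef m w []) : Good m w := fun M hb hM hs =>
  h M hb hM (satC_iff.2 hs) fun _ hp => absurd hp List.not_mem_nil

/-- **Sorted patterns**, from refutations of configurations. -/
theorem good_of_sorted_sref {p q m w : ℕ} {E1 E0 : List (ℕ × Bool)} {a1 a2 c1 c2 : Fin 6}
    (h1 : SRef (m ||| 2 ^ 36) (w ||| 2 ^ 36) E1) (h0 : SRef (m ||| 2 ^ 36) w E0)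
    (ha : a1 < a2) (hc : c1 < c2) (hm : m < 2 ^ 36)
    (hw : w < 2 ^ 36) (hinv : Inv p q m w) (hok : SortOK (blk p) (blk q) a1 a2 c1 c2)
    (s1 : subE E1 p q a1 a2 c1 c2 = true) (s0 : subE E0 p q a1 a2 c1 c2 = true) :
    Good m w := by
  intro M hb hM hs
  obtain ⟨ρ, γ, hρ, hγ, hsr⟩ := exists_srt hM hb ha hc hok
  have hb' := bad_perm hb ρ γ
  have hM' : ∀ i c, 0 < (fun a b => M (ρ a) (γ b)) i c := fun i c => hM _ _
  obtain ⟨h63, -, -⟩ := chart_facts hb' hM'
  have hs' := sat_act hinv hm hρ hγ hs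
  rw [← stt_perm hb] at hs'
  have hall : ∀ e ∈ srtE p q a1 a2 c1 c2,
      chiN (cf fun a b => M (ρ a) (γ b)) e.1 = e.2 := by
    intro e he
    rcases mem_srtE he with ⟨x, y, hxy, hp, rfl⟩ | ⟨x, y, hxy, hq, rfl⟩
    · exact chi_mm h63 hxy hc ((minor_sign hb'.1 hxy hc).2.1 (hsr.1 x y hxy hp))
    · exact chi_mm h63 ha hxy ((minor_sign hb'.1 ha hxy).2.1 (hsr.2 x y hxy hq))
  have hE : ∀ {E : List (ℕ × Bool)}, subE E p q a1 a2 c1 c2 = true →
      ∀ e ∈ E, chiN (cf fun a b => M (ρ a) (γ b)) e.1 = e.2 := by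
    intro E hE e he
    exact hall e (List.contains_iff_mem.1 (List.all_eq_true.1 hE e he))
  have hbit : ∀ (x : ℕ) (k j : Fin 6), (x ||| 2 ^ 36).testBit (6 * (k : ℕ) + j) =
      x.testBit (6 * (k : ℕ) + j) := by
    intro x k j
    rw [Nat.testBit_or, Nat.testBit_two_pow, decide_eq_false (by omega), Bool.or_false]
  rcases hD : (stt fun a b => M (ρ a) (γ b)).2 with _ | _
  · refine h0 _ hb' hM' (satC_iff.2 ⟨fun k j h => hs'.1 k j (by rw [← hbit m k j]; exact h),
      fun _ => ?_⟩) (hE s0)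
    rw [hD, Nat.testBit_lt_two_pow hw]
  · refine h1 _ hb' hM' (satC_iff.2 ⟨fun k j h => ?_, fun _ => ?_⟩) (hE s1)
    · rw [hbit w k j]
      exact hs'.1 k j (by rw [← hbit m k j]; exact h)
    · rw [hD, Nat.testBit_or, Nat.testBit_two_pow]
      simp

end

/-! ### The number of positive signs -/

/-- The number of positive signs of a state. -/
def cnt (s : St36) : ℕ := (univ.filter fun p : Fin 6 × Fin 6 => s.1 p.1 p.2 = true).card

theorem cnt_le (s : St36) : cnt s ≤ 36 := by
  refine le_trans (Finset.card_filter_le _ _) ?_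
  rw [Finset.card_univ, Fintype.card_prod, Fintype.card_fin]

theorem cnt_act (ρ γ : Equiv.Perm (Fin 6)) (s : St36) : cnt (actS ρ γ s) = cnt s := by
  refine Finset.card_bij (fun p _ => (γ p.1, ρ p.2)) ?_ ?_ ?_
  · intro p hp
    rw [Finset.mem_filter] at hp ⊢
    exact ⟨Finset.mem_univ _, hp.2⟩
  · intro p _ p' _ h
    rw [Prod.mk.injEq] at h
    exact Prod.ext (γ.injective h.1) (ρ.injective h.2)
  · intro p hp
    rw [Finset.mem_filter] at hp
    refine ⟨(γ.symm p.1, ρ.symm p.2), ?_, ?_⟩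
    · rw [Finset.mem_filter]
      refine ⟨Finset.mem_univ _, ?_⟩
      show s.1 (γ (γ.symm p.1)) (ρ (ρ.symm p.2)) = true
      rw [Equiv.apply_symm_apply, Equiv.apply_symm_apply]
      exact hp.2
    · show (γ (γ.symm p.1), ρ (ρ.symm p.2)) = p
      rw [Equiv.apply_symm_apply, Equiv.apply_symm_apply]

/-- Number of bits below `n`. -/
noncomputable def pcn (X : Nat) (n : Nat) : Nat :=
  @Nat.rec (fun _ => Nat) (nat_lit 0) (fun i ih => Nat.add ih (bt X i)) n

theorem pcn_eq (X : ℕ) : ∀ n, pcn X n = ((Finset.range n).filter fun i => X.testBit i = true).card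
  | 0 => by
    rw [Finset.range_zero, Finset.filter_empty, Finset.card_empty]
    rfl
  | n + 1 => by
    have e : pcn X (n + 1) = pcn X n + bt X n := rfl
    rw [e, pcn_eq X n, bt_eq, Finset.range_add_one, Finset.filter_insert]
    by_cases h : X.testBit n = true
    · rw [if_pos h, Finset.card_insert_of_notMem (by simp), h]
      rfl
    · rw [if_neg h]
      rw [Bool.not_eq_true] at h
      rw [h]
      rfl

theorem idx_inj : ∀ i < 36, ∀ i' < 36, i / 6 = i' / 6 → i % 6 = i' % 6 → i = i' := by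
  intro i _ i' _ h1 h2
  omega

/-- Counting positions. -/
theorem pcn_le (X : ℕ) (f : Fin 6 → Fin 6 → Prop) [∀ k j, Decidable (f k j)]
    (h : ∀ k j : Fin 6, X.testBit (6 * (k : ℕ) + j) = true → f k j) :
    pcn X 36 ≤ (univ.filter fun p : Fin 6 × Fin 6 => f p.1 p.2).card := by
  rw [pcn_eq]
  refine Finset.card_le_card_of_injOn (fun i => ((⟨i / 6 % 6, Nat.mod_lt _ (by norm_num)⟩ : Fin 6),
    (⟨i % 6, Nat.mod_lt _ (by norm_num)⟩ : Fin 6))) ?_ ?_
  · intro i hi
    rw [Finset.mem_coe, Finset.mem_filter, Finset.mem_range] at hi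
    rw [Finset.mem_coe, Finset.mem_filter]
    refine ⟨Finset.mem_univ _, ?_⟩
    refine h _ _ ?_
    have e : 6 * (i / 6 % 6) + i % 6 = i := by omega
    show X.testBit (6 * (i / 6 % 6) + i % 6) = true
    rw [e]
    exact hi.2
  · intro i hi i' hi' h2
    rw [Finset.mem_coe, Finset.mem_filter, Finset.mem_range] at hi hi'
    simp only [Prod.mk.injEq, Fin.mk.injEq] at h2
    omega

/-- The numbers of positive and negative signs of a pattern. -/
noncomputable def plN (m w : Nat) : Nat := pcn (Nat.land m w) (nat_lit 36)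
noncomputable def miN (m w : Nat) : Nat := pcn (Nat.xor m (Nat.land m w)) (nat_lit 36)

theorem cnt_bounds {m w : ℕ} {s : St36} (h : Pool.Agent.H77.Z12.Sat m w s) :
    plN m w ≤ cnt s ∧ cnt s + miN m w ≤ 36 := by
  constructor
  · refine pcn_le _ (fun k j => s.1 k j = true) fun k j hkj => ?_
    have e : (Nat.land m w).testBit (6 * (k : ℕ) + j) =
      (m.testBit (6 * (k : ℕ) + j) && w.testBit (6 * (k : ℕ) + j)) := Nat.testBit_and m w _
    rw [e, Bool.and_eq_true] at hkj
    rw [h.1 k j hkj.1]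
    exact hkj.2
  · have h1 : miN m w ≤ (univ.filter fun p : Fin 6 × Fin 6 => ¬ (s.1 p.1 p.2 = true)).card := by
      refine pcn_le _ (fun k j => ¬ (s.1 k j = true)) fun k j hkj => ?_
      have e : (Nat.xor m (Nat.land m w)).testBit (6 * (k : ℕ) + j) =
        xor (m.testBit (6 * (k : ℕ) + j))
          (m.testBit (6 * (k : ℕ) + j) && w.testBit (6 * (k : ℕ) + j)) := by
        have e1 := Nat.testBit_xor m (Nat.land m w) (6 * (k : ℕ) + j)
        have e2 := Nat.testBit_and m w (6 * (k : ℕ) + j)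
        exact e1.trans (congrArg _ e2)
      rw [e] at hkj
      have hm : m.testBit (6 * (k : ℕ) + j) = true := by
        revert hkj
        cases m.testBit (6 * (k : ℕ) + j) <;> simp
      rw [h.1 k j hm]
      rw [hm] at hkj
      revert hkj
      cases w.testBit (6 * (k : ℕ) + j) <;> simp
    have h2 := Finset.card_filter_add_card_filter_not (s := (univ : Finset (Fin 6 × Fin 6)))
      (fun p => s.1 p.1 p.2 = true)
    have h3 : (univ : Finset (Fin 6 × Fin 6)).card = 36 := by
      rw [Finset.card_univ, Fintype.card_prod, Fintype.card_fin]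
    have h4 : cnt s = (univ.filter fun p : Fin 6 × Fin 6 => s.1 p.1 p.2 = true).card := rfl
    omega

/-! ### Ranks -/

/-- The rank of a number of positive signs (a table, eight bits each). -/
def rkN (Φ n : ℕ) : ℕ := (Φ >>> (8 * n)) % 256

/-- The table of the number of positive signs itself. -/
def Phi1 : ℕ := 0x24232221201f1e1d1c1b1a191817161514131211100f0e0d0c0b0a09080706050403020100

/-- The rank of a bad chart is at most `r`. -/
def MaxR (Φ r : ℕ) : Prop := ∀ M : Fin 6 → Fin 6 → ℝ, Bad (cf M) → (∀ i c, 0 < M i c) →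
  rkN Φ (cnt (stt M)) ≤ r

theorem MaxR.mono {Φ r r' : ℕ} (h : MaxR Φ r) (hr : r ≤ r') : MaxR Φ r' := fun M hb hM =>
  le_trans (h M hb hM) hr

/-- All ranks from `a` to `36 - b` are larger than `r`. -/
def exN (Φ r a b : ℕ) : Bool := (List.range 37).all fun n =>
  decide (n < a) || decide (36 < n + b) || decide (r < rkN Φ n)

/-- A pattern with large rank is excluded. -/
theorem good_of_maxR {Φ r a b m w : ℕ} (h : MaxR Φ r) (he : exN Φ r a b = true)
    (ha : a ≤ plN m w) (hb : b ≤ miN m w) : Good m w := by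
  intro M hbad hM hs
  obtain ⟨h1, h2⟩ := cnt_bounds hs
  have h3 := cnt_le (stt M)
  have h4 := List.all_eq_true.1 he (cnt (stt M)) (List.mem_range.2 (by omega))
  rw [Bool.or_eq_true, Bool.or_eq_true, decide_eq_true_iff, decide_eq_true_iff,
    decide_eq_true_iff] at h4
  have h5 := h M hbad hM
  omega

/-- The check of an entry. -/
noncomputable def chkE (a b R : Nat) : Bool :=
  band (band (okP (yP R)) (Nat.beq (bt (yM R) (nat_lit 36)) (nat_lit 0)))
    (band (Nat.ble a (plN (yM R) (yW R))) (Nat.ble b (miN (yM R) (yW R))))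

/-- The check of a table. -/
noncomputable def chkY (a b Y : Nat) (n : Nat) : Bool :=
  @Nat.rec (fun _ => Bool) true (fun e ih => band ih (chkE a b (yR Y e))) n

theorem chkY_spec {a b Y : ℕ} : ∀ {n : ℕ}, chkY a b Y n = true → ∀ e < n,
    chkE a b (yR Y e) = true
  | 0, _, e, he => absurd he (Nat.not_lt_zero e)
  | n + 1, h, e, he => by
    have h' : band (chkY a b Y n) (chkE a b (yR Y n)) = true := h
    rw [band_iff] at h'
    rcases Nat.lt_succ_iff_lt_or_eq.1 he with he | rfl
    · exact chkY_spec h'.1 e he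
    · exact h'.2

/-- **The clauses of charts with large rank.** -/
theorem yOK_of {Φ r a b Y nY : ℕ} (h : MaxR Φ r) (he : exN Φ r a b = true)
    (hc : chkY a b Y nY = true) : YOK Y nY := by
  intro e hlt
  have h1 := chkY_spec hc e hlt
  rw [chkE, band_iff, band_iff, band_iff, beq_iff, ble_iff, ble_iff] at h1
  obtain ⟨⟨h2, h3⟩, h4, h5⟩ := h1
  refine ⟨h2, ?_, good_of_maxR h he h4 h5⟩
  rw [bt_eq] at h3
  revert h3
  cases (yM (yR Y e)).testBit 36 <;> simp

/-- All ranks possible for the pattern are at most `r`. -/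
noncomputable def capN (Φ r m w : ℕ) : Bool := (List.range 37).all fun n =>
  decide (n < plN m w) || decide (36 < n + miN m w) || decide (rkN Φ n ≤ r)

/-- **A pattern is excluded** if it is refuted with clauses of charts of larger rank. -/
theorem good_of_rank {Φ r a b m w X nX Y nY : ℕ} (h : RefXY m w [] X nX Y nY) (hx : ExtOK X nX)
    (hc : chkY a b Y nY = true) (he : exN Φ r a b = true) (hr : MaxR Φ r) : Good m w :=
  good_of_sref (sref_of_refXY h hx (yOK_of hr he hc))

/-- **No bad configuration from a covering by excluded patterns**, the chart of maximal rank. -/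
theorem not_bad_of_rank {Φ G nG : ℕ} (h : ∀ s, Hit G nG s)
    (hg : ∀ i < nG, Good (ngM G i) (ngV G i) ∨ ∃ r, capN Φ r (ngM G i) (ngV G i) = true ∧
      (MaxR Φ r → Good (ngM G i) (ngV G i))) (v : Fin 12 → Fin 6 → ℝ) : ¬ Bad v := by
  intro hv
  obtain ⟨M0, hM0, hgen0, hb0⟩ :=
    exists_chart (r := 6) (m := 6) v hv.1 (by norm_num) (by norm_num) hv.2
  have hex : ∃ M : Fin 6 → Fin 6 → ℝ, Bad (cf M) ∧ (∀ i c, 0 < M i c) ∧
      MaxR Φ (rkN Φ (cnt (stt M))) := by
    by_contra hcon
    push Not at hcon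
    have key : ∀ n : ℕ, ∃ M : Fin 6 → Fin 6 → ℝ, Bad (cf M) ∧ (∀ i c, 0 < M i c) ∧
        n ≤ rkN Φ (cnt (stt M)) := by
      intro n
      induction n with
      | zero => exact ⟨M0, ⟨hgen0, hb0⟩, hM0, Nat.zero_le _⟩
      | succ n ih =>
        obtain ⟨M, hb, hM, hn⟩ := ih
        have h1 := hcon M hb hM
        unfold MaxR at h1
        push Not at h1
        obtain ⟨M', hb', hM', h2⟩ := h1
        exact ⟨M', hb', hM', by omega⟩
    obtain ⟨M, -, -, h1⟩ := key 256
    have h2 : rkN Φ (cnt (stt M)) < 256 := Nat.mod_lt _ (by norm_num)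
    omega
  obtain ⟨M, hb, hM, hmax⟩ := hex
  obtain ⟨ρ, γ, i, hi, hs⟩ := h (stt M)
  rcases hg i hi with h1 | ⟨r, hr, h1⟩
  · exact h1.act hb hM ρ γ hs
  · refine (h1 (hmax.mono ?_)).act hb hM ρ γ hs
    obtain ⟨h2, h3⟩ := cnt_bounds hs
    rw [cnt_act] at h2 h3
    have h4 := cnt_le (stt M)
    have h5 := List.all_eq_true.1 hr (cnt (stt M)) (List.mem_range.2 (by omega))
    rw [Bool.or_eq_true, Bool.or_eq_true, decide_eq_true_iff, decide_eq_true_iff,
      decide_eq_true_iff] at h5
    omega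

end Pool.Agent.H26.Z12
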