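import Mathlib
import Pool.Agent.H26.Z12.MaxChart

/-!
The chart of maximal rank, the rank a sum of monotone functions of the numbers of positive signs
of the rows and columns (MP_1e71f9_co).
-/

set_option autoImplicit false

namespace Pool.Agent.H26.Z12

open Finset Matrix Pool.Agent.H67.Nu Pool.Agent.H77.Z12 Pool.Agent.H28.Z12 Pool.Agent.H13.Z12
  Pool.Agent.H28.Z12.Cov

/-- Value `n` of a table, 16 bits each. -/
def tbl (F n : Nat) : Nat := Nat.land (Nat.shiftRight F (Nat.mul (nat_lit 16) n)) (nat_lit 65535)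

theorem tbl_lt (F n : ℕ) : tbl F n < 65536 := by
  show (F >>> (16 * n)) &&& 65535 < 65536
  exact Nat.lt_succ_of_le Nat.and_le_right

/-- The table is monotone. -/
def monoT (F : ℕ) : Bool := (List.range 6).all fun n => decide (tbl F n ≤ tbl F (n + 1))

theorem mono_of {F : ℕ} (h : monoT F = true) : ∀ a b : ℕ, a ≤ b → b ≤ 6 → tbl F a ≤ tbl F b := by
  have h1 : ∀ n < 6, tbl F n ≤ tbl F (n + 1) := fun n hn =>
    of_decide_eq_true (List.all_eq_true.1 h n (List.mem_range.2 hn))
  intro a b hab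
  induction b, hab using Nat.le_induction with
  | base => intro _; exact le_rfl
  | succ b hb ih =>
    intro hb6
    exact le_trans (ih (by omega)) (h1 b (by omega))

/-- The numbers of positive signs of a row and of a column. -/
def rowc (x : Fin 6 → Fin 6 → Bool) (k : Fin 6) : ℕ := (univ.filter fun j => x k j = true).card
def colc (x : Fin 6 → Fin 6 → Bool) (j : Fin 6) : ℕ := (univ.filter fun k => x k j = true).card

/-- The rank. -/
def RK (F G : ℕ) (x : Fin 6 → Fin 6 → Bool) : ℕ :=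
  (∑ k, tbl F (rowc x k)) + ∑ j, tbl G (colc x j)

theorem rowc_le (x : Fin 6 → Fin 6 → Bool) (k : Fin 6) : rowc x k ≤ 6 := by
  refine le_trans (Finset.card_filter_le _ _) ?_
  rw [Finset.card_univ, Fintype.card_fin]

theorem colc_le (x : Fin 6 → Fin 6 → Bool) (k : Fin 6) : colc x k ≤ 6 := by
  refine le_trans (Finset.card_filter_le _ _) ?_
  rw [Finset.card_univ, Fintype.card_fin]

theorem RK_lt (F G : ℕ) (x : Fin 6 → Fin 6 → Bool) : RK F G x < 2 ^ 20 := by
  have h1 : ∑ k, tbl F (rowc x k) ≤ ∑ _k : Fin 6, 65536 :=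
    Finset.sum_le_sum fun k _ => (tbl_lt _ _).le
  have h2 : ∑ k, tbl G (colc x k) ≤ ∑ _k : Fin 6, 65536 :=
    Finset.sum_le_sum fun k _ => (tbl_lt _ _).le
  rw [Finset.sum_const, Finset.card_univ, Fintype.card_fin, smul_eq_mul] at h1 h2
  unfold RK
  omega

theorem RK_mono {F G : ℕ} (hF : monoT F = true) (hG : monoT G = true)
    {x y : Fin 6 → Fin 6 → Bool} (h : ∀ k j, x k j = true → y k j = true) :
    RK F G x ≤ RK F G y := by
  refine Nat.add_le_add (Finset.sum_le_sum fun k _ => ?_) (Finset.sum_le_sum fun j _ => ?_)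
  · refine mono_of hF _ _ (Finset.card_le_card fun j hj => ?_) (rowc_le _ _)
    rw [Finset.mem_filter] at hj ⊢
    exact ⟨hj.1, h _ _ hj.2⟩
  · refine mono_of hG _ _ (Finset.card_le_card fun k hk => ?_) (colc_le _ _)
    rw [Finset.mem_filter] at hk ⊢
    exact ⟨hk.1, h _ _ hk.2⟩

theorem RK_act (F G : ℕ) (ρ γ : Equiv.Perm (Fin 6)) (x : Fin 6 → Fin 6 → Bool) :
    RK F G (fun k j => x (γ k) (ρ j)) = RK F G x := by
  have h1 : ∀ k, rowc (fun k j => x (γ k) (ρ j)) k = rowc x (γ k) := by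
    intro k
    refine Finset.card_bij (fun j _ => ρ j) ?_ ?_ ?_
    · intro j hj
      rw [Finset.mem_filter] at hj ⊢
      exact ⟨Finset.mem_univ _, hj.2⟩
    · intro j _ j' _ h
      exact ρ.injective h
    · intro j hj
      rw [Finset.mem_filter] at hj
      refine ⟨ρ.symm j, ?_, Equiv.apply_symm_apply _ _⟩
      rw [Finset.mem_filter]
      refine ⟨Finset.mem_univ _, ?_⟩
      show x (γ k) (ρ (ρ.symm j)) = true
      rw [Equiv.apply_symm_apply]
      exact hj.2
  have h2 : ∀ j, colc (fun k j => x (γ k) (ρ j)) j = colc x (ρ j) := by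
    intro k
    refine Finset.card_bij (fun j _ => γ j) ?_ ?_ ?_
    · intro j hj
      rw [Finset.mem_filter] at hj ⊢
      exact ⟨Finset.mem_univ _, hj.2⟩
    · intro j _ j' _ h
      exact γ.injective h
    · intro j hj
      rw [Finset.mem_filter] at hj
      refine ⟨γ.symm j, ?_, Equiv.apply_symm_apply _ _⟩
      rw [Finset.mem_filter]
      refine ⟨Finset.mem_univ _, ?_⟩
      show x (γ (γ.symm j)) (ρ k) = true
      rw [Equiv.apply_symm_apply]
      exact hj.2
  unfold RK
  simp only [h1, h2]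
  rw [Equiv.sum_comp γ fun k => tbl F (rowc x k), Equiv.sum_comp ρ fun j => tbl G (colc x j)]

/-! ### The rank of a number -/

/-- Sum of the bits `a, a + s, ..` (`n` of them). -/
noncomputable def rsum (X a s : Nat) (n : Nat) : Nat :=
  @Nat.rec (fun _ => Nat) (nat_lit 0) (fun i ih => Nat.add ih (bt X (Nat.add a (Nat.mul s i)))) n

theorem rsum_eq (X a s : ℕ) (f : Fin 6 → Bool) (h : ∀ i : Fin 6, X.testBit (a + s * i) = f i) :
    rsum X a s 6 = (univ.filter fun i : Fin 6 => f i = true).card := by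
  have e : rsum X a s 6 = bt X (a + s * 0) + bt X (a + s * 1) + bt X (a + s * 2) +
      bt X (a + s * 3) + bt X (a + s * 4) + bt X (a + s * 5) := by
    show 0 + _ + _ + _ + _ + _ + _ = _
    rw [Nat.zero_add]
    rfl
  have h0 := h 0
  have h1 := h 1
  have h2 := h 2
  have h3 := h 3
  have h4 := h 4
  have h5 := h 5
  rw [e, Finset.card_filter, Fin.sum_univ_six]
  simp only [bt_eq]
  have e0 : X.testBit (a + s * 0) = f 0 := h0
  have e1 : X.testBit (a + s * 1) = f 1 := h1
  have e2 : X.testBit (a + s * 2) = f 2 := h2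
  have e3 : X.testBit (a + s * 3) = f 3 := h3
  have e4 : X.testBit (a + s * 4) = f 4 := h4
  have e5 : X.testBit (a + s * 5) = f 5 := h5
  rw [e0, e1, e2, e3, e4, e5]
  have hb : ∀ b : Bool, b.toNat = if b = true then 1 else 0 := by decide
  simp only [hb]

/-- The rank of a number. -/
noncomputable def NR (F G X : Nat) : Nat :=
  Nat.add (@Nat.rec (fun _ => Nat) (nat_lit 0) (fun k ih => Nat.add ih
      (tbl F (rsum X (Nat.mul (nat_lit 6) k) (nat_lit 1) (nat_lit 6)))) (nat_lit 6))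
    (@Nat.rec (fun _ => Nat) (nat_lit 0) (fun j ih => Nat.add ih
      (tbl G (rsum X j (nat_lit 6) (nat_lit 6)))) (nat_lit 6))

theorem NR_eq (F G X : ℕ) : NR F G X = RK F G fun k j => X.testBit (6 * (k : ℕ) + j) := by
  have h1 : ∀ k : Fin 6, rsum X (6 * (k : ℕ)) 1 6 =
      rowc (fun k j => X.testBit (6 * (k : ℕ) + j)) k := fun k =>
    rsum_eq X _ _ (fun j => X.testBit (6 * (k : ℕ) + j)) fun j => by rw [one_mul]
  have h2 : ∀ j : Fin 6, rsum X (j : ℕ) 6 6 =
      colc (fun k j => X.testBit (6 * (k : ℕ) + j)) j := fun j =>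
    rsum_eq X _ _ (fun k => X.testBit (6 * (k : ℕ) + j)) fun k => by rw [Nat.add_comm]
  unfold RK
  simp only [← h1, ← h2]
  rw [Fin.sum_univ_six, Fin.sum_univ_six]
  have e : NR F G X = (0 + tbl F (rsum X (6 * 0) 1 6) + tbl F (rsum X (6 * 1) 1 6) +
      tbl F (rsum X (6 * 2) 1 6) + tbl F (rsum X (6 * 3) 1 6) + tbl F (rsum X (6 * 4) 1 6) +
      tbl F (rsum X (6 * 5) 1 6)) + (0 + tbl G (rsum X 0 6 6) + tbl G (rsum X 1 6 6) +
      tbl G (rsum X 2 6 6) + tbl G (rsum X 3 6 6) + tbl G (rsum X 4 6 6) +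
      tbl G (rsum X 5 6 6)) := rfl
  rw [e, Nat.zero_add, Nat.zero_add]
  rfl

/-- The smallest and the largest matrix of a pattern. -/
def loN (m w : Nat) : Nat := Nat.land m w
def hiN (m w : Nat) : Nat := Nat.lor (Nat.xor (Nat.land m (nat_lit 68719476735)) (nat_lit 68719476735)) (Nat.land m w)

theorem rk_bounds {F G : ℕ} (hF : monoT F = true) (hG : monoT G = true) {m w : ℕ} {s : St36}
    (h : Pool.Agent.H77.Z12.Sat m w s) : NR F G (loN m w) ≤ RK F G s.1 ∧
      RK F G s.1 ≤ NR F G (hiN m w) := by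
  constructor
  · rw [NR_eq]
    refine RK_mono hF hG fun k j hkj => ?_
    have e : (loN m w).testBit (6 * (k : ℕ) + j) =
      (m.testBit (6 * (k : ℕ) + j) && w.testBit (6 * (k : ℕ) + j)) := Nat.testBit_and m w _
    rw [e, Bool.and_eq_true] at hkj
    rw [h.1 k j hkj.1]
    exact hkj.2
  · rw [NR_eq]
    refine RK_mono hF hG fun k j hkj => ?_
    have e : (hiN m w).testBit (6 * (k : ℕ) + j) =
        (xor (m.testBit (6 * (k : ℕ) + j)) true ||
          (m.testBit (6 * (k : ℕ) + j) && w.testBit (6 * (k : ℕ) + j))) := by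
      have e1 : (68719476735 : ℕ).testBit (6 * (k : ℕ) + j) = true := by
        have e0 : (68719476735 : ℕ) = 2 ^ 36 - 1 := by norm_num
        rw [e0, Nat.testBit_two_pow_sub_one, decide_eq_true (by omega)]
      have e2 : hiN m w = ((m &&& 68719476735) ^^^ 68719476735) ||| (m &&& w) := rfl
      rw [e2, Nat.testBit_or, Nat.testBit_xor, Nat.testBit_and, Nat.testBit_and, e1,
        Bool.and_true]
    rw [e]
    by_cases hm : m.testBit (6 * (k : ℕ) + j) = true
    · rw [hm, ← h.1 k j hm, hkj]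
      rfl
    · rw [Bool.not_eq_true] at hm
      rw [hm]
      rfl

/-- The rank of a bad chart is at most `r`. -/
def MaxK (F G r : ℕ) : Prop := ∀ M : Fin 6 → Fin 6 → ℝ, Bad (cf M) → (∀ i c, 0 < M i c) →
  RK F G (stt M).1 ≤ r

theorem MaxK.mono {F G r r' : ℕ} (h : MaxK F G r) (hr : r ≤ r') : MaxK F G r' :=
  fun M hb hM => le_trans (h M hb hM) hr

/-- A pattern with large rank is excluded. -/
theorem good_of_maxK {F G r m w : ℕ} (hF : monoT F = true) (hG : monoT G = true)
    (h : MaxK F G r) (he : r < NR F G (loN m w)) : Good m w := by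
  intro M hbad hM hs
  have h1 := (rk_bounds hF hG hs).1
  have h2 := h M hbad hM
  omega

/-- The check of an entry. -/
noncomputable def chkE2 (F G r R : Nat) : Bool :=
  band (band (okP (yP R)) (Nat.beq (bt (yM R) (nat_lit 36)) (nat_lit 0)))
    (Nat.ble (Nat.succ r) (NR F G (loN (yM R) (yW R))))

/-- The check of a table. -/
noncomputable def chkY2 (F G r Y : Nat) (n : Nat) : Bool :=
  @Nat.rec (fun _ => Bool) true (fun e ih => band ih (chkE2 F G r (yR Y e))) n

theorem chkY2_spec {F G r Y : ℕ} : ∀ {n : ℕ}, chkY2 F G r Y n = true → ∀ e < n,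
    chkE2 F G r (yR Y e) = true
  | 0, _, e, he => absurd he (Nat.not_lt_zero e)
  | n + 1, h, e, he => by
    have h' : band (chkY2 F G r Y n) (chkE2 F G r (yR Y n)) = true := h
    rw [band_iff] at h'
    rcases Nat.lt_succ_iff_lt_or_eq.1 he with he | rfl
    · exact chkY2_spec h'.1 e he
    · exact h'.2

/-- **The clauses of charts with large rank.** -/
theorem yOK_of2 {F G r Y nY : ℕ} (hF : monoT F = true) (hG : monoT G = true) (h : MaxK F G r)
    (hc : chkY2 F G r Y nY = true) : YOK Y nY := by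
  intro e hlt
  have h1 := chkY2_spec hc e hlt
  rw [chkE2, band_iff, band_iff, beq_iff, ble_iff] at h1
  obtain ⟨⟨h2, h3⟩, h4⟩ := h1
  refine ⟨h2, ?_, good_of_maxK hF hG h h4⟩
  rw [bt_eq] at h3
  revert h3
  cases (yM (yR Y e)).testBit 36 <;> simp

/-- **A pattern is excluded** if it is refuted with clauses of charts of larger rank. -/
theorem good_of_rank2 {F G r m w X nX Y nY : ℕ} (h : RefXY m w [] X nX Y nY) (hx : ExtOK X nX)
    (hc : chkY2 F G r Y nY = true) (hF : monoT F = true) (hG : monoT G = true)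
    (hr : MaxK F G r) : Good m w :=
  good_of_sref (sref_of_refXY h hx (yOK_of2 hF hG hr hc))

attribute [local irreducible] chiN topN sigma RK

/-- **No bad configuration from a covering by excluded patterns**, the chart of maximal rank. -/
theorem not_bad_of_rank2 {F G Γ nG : ℕ} (hF : monoT F = true) (hG : monoT G = true)
    (h : ∀ s, Hit Γ nG s)
    (hg : ∀ i < nG, Good (ngM Γ i) (ngV Γ i) ∨ ∃ r, NR F G (hiN (ngM Γ i) (ngV Γ i)) ≤ r ∧
      (MaxK F G r → Good (ngM Γ i) (ngV Γ i))) (v : Fin 12 → Fin 6 → ℝ) : ¬ Bad v := by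
  intro hv
  obtain ⟨M0, hM0, hgen0, hb0⟩ :=
    exists_chart (r := 6) (m := 6) v hv.1 (by norm_num) (by norm_num) hv.2
  have hex : ∃ M : Fin 6 → Fin 6 → ℝ, Bad (cf M) ∧ (∀ i c, 0 < M i c) ∧
      MaxK F G (RK F G (stt M).1) := by
    by_contra hcon
    push Not at hcon
    have key : ∀ n : ℕ, ∃ M : Fin 6 → Fin 6 → ℝ, Bad (cf M) ∧ (∀ i c, 0 < M i c) ∧
        n ≤ RK F G (stt M).1 := by
      intro n
      induction n with
      | zero => exact ⟨M0, ⟨hgen0, hb0⟩, hM0, Nat.zero_le _⟩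
      | succ n ih =>
        obtain ⟨M, hb, hM, hn⟩ := ih
        have h1 := hcon M hb hM
        unfold MaxK at h1
        push Not at h1
        obtain ⟨M', hb', hM', h2⟩ := h1
        exact ⟨M', hb', hM', by omega⟩
    obtain ⟨N, hN⟩ : ∃ N : ℕ, ∀ x, RK F G x < N := ⟨2 ^ 20, RK_lt F G⟩
    obtain ⟨M, -, -, h1⟩ := key N
    exact absurd h1 (not_le.2 (hN _))
  obtain ⟨M, hb, hM, hmax⟩ := hex
  obtain ⟨ρ, γ, i, hi, hs⟩ := h (stt M)
  rcases hg i hi with h1 | ⟨r, hr, h1⟩
  · exact h1.act hb hM ρ γ hs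
  · refine (h1 (hmax.mono ?_)).act hb hM ρ γ hs
    have h2 := (rk_bounds hF hG hs).2
    have h3 := RK_act F G ρ γ (stt M).1
    have e : (actS ρ γ (stt M)).1 = fun k j => (stt M).1 (γ k) (ρ j) := rfl
    rw [e, h3] at h2
    exact le_trans h2 hr

end Pool.Agent.H26.Z12
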