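import Mathlib
import Pool.Agent.H26.Z12.SortedRef
import Pool.Agent.H64.Z12.Flip
import Pool.Agent.H28.Z12.CondR

/-!
Sorted patterns and the mutation of the simplicial cell (MP_1e71f9_co).
-/

set_option autoImplicit false

namespace Pool.Agent.H26.Z12

open Pool.Agent.H77.Z12 Pool.Agent.H28.Z12 Pool.Agent.H13.Z12 Pool.Agent.H28.Z12.Cov
open Pool.Agent.H64.Z12

/-- The images used by a conditional refutation are excluded after the mutation. -/
def ExtF (X nX : ℕ) : Prop := ∀ M : Fin 6 → Fin 6 → ℝ, Bad (cf M) → (∀ i c, 0 < M i c) →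
  ∀ e < nX, ¬ SatC (flX (chiN (cf M))) (ngM X e) (ngV X e)

theorem extF_zero (X : ℕ) : ExtF X 0 := fun _ _ _ e he => absurd he (Nat.not_lt_zero e)

theorem inv_compl {p q m w : ℕ} (h : Inv p q m w) : Inv p q m (w ^^^ m) := by
  intro k k' j j' hk hj
  obtain ⟨h1, h2⟩ := h k k' j j' hk hj
  refine ⟨h1, fun hm => ?_⟩
  rw [Nat.testBit_xor, Nat.testBit_xor, ← h1, hm, h2 hm]

theorem pR_mm : ∀ a a' : Fin 6, a < a' → ∀ c c' : Fin 6, c < c' →
    eF (mm a a' c c') = true ∧ mm a a' c c' < 4096 := by decide +kernel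

variable {χ T : ℕ → Bool}

theorem flX_mm (h63 : χ 63 = true) {a a' c c' : Fin 6} (ha : a < a') (hc : c < c')
    (h : fsm χ (rm a a') (6 + c) (6 + c') = !(fsm χ (rm a a') a a')) :
    flX χ (mm a a' c c') = mb a a' := by
  obtain ⟨e0, e1⟩ := rm_facts2 a a' ha
  obtain ⟨e2, e3⟩ := e1 c c' hc
  obtain ⟨e4, e5⟩ := pR_mm a a' ha c c' hc
  rw [flX, Nat.mod_eq_of_lt e5, flY, e4]
  rw [fsm, fsm, e0, h63, e2, e3] at h
  rw [mb, mm]
  revert h
  cases χ (rm ↑a ↑a' ||| 2 ^ (6 + (c : ℕ)) ||| 2 ^ (6 + (c' : ℕ))) <;>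
    cases ipm (rm ↑a ↑a') ↑a <;> cases ipm (rm ↑a ↑a') ↑a' <;> simp

attribute [local irreducible] chiN topN sigma

/-- **Sorted patterns in the relaxed model exclude the complementary pattern too.** -/
theorem good_of_sorted_flip {p q m w X1 n1 X0 n0 : ℕ} {E1 E0 : List (ℕ × Bool)}
    {a1 a2 c1 c2 : Fin 6} (h1 : RRefX (m ||| 2 ^ 36) (w ||| 2 ^ 36) E1 X1 n1)
    (h0 : RRefX (m ||| 2 ^ 36) w E0 X0 n0) (x1 : ExtF X1 n1) (x0 : ExtF X0 n0) (ha : a1 < a2)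
    (hc : c1 < c2) (hm : m < 2 ^ 36) (hw : w < 2 ^ 36) (hinv : Inv p q m w)
    (hok : SortOK (blk p) (blk q) a1 a2 c1 c2) (s1 : subE E1 p q a1 a2 c1 c2 = true)
    (s0 : subE E0 p q a1 a2 c1 c2 = true) : Good m (w ^^^ m) := by
  intro M hb hM hs
  obtain ⟨ρ, γ, hρ, hγ, hsr⟩ := exists_srt_neg hM hb ha hc hok
  have hb' := bad_perm hb ρ γ
  have hM' : ∀ i c, 0 < (fun a b => M (ρ a) (γ b)) i c := fun i c => hM _ _
  obtain ⟨h63, hS, hMod⟩ := chart_facts hb' hM'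
  have hs' := sat_act (inv_compl hinv) hm hρ hγ hs
  rw [← stt_perm hb] at hs'
  have hsg : ∀ k j : Fin 6, m.testBit (6 * k + j) = true →
      sigma (flX (chiN (cf fun a b => M (ρ a) (γ b)))) k j = w.testBit (6 * k + j) := by
    intro k j hkj
    have h2 := hs'.1 k j hkj
    have h3 : sigma (chiN (cf fun a b => M (ρ a) (γ b))) k j = (w ^^^ m).testBit (6 * k + j) := h2
    rw [sigma_flX, h3, Nat.testBit_xor, hkj]
    cases w.testBit (6 * (k : ℕ) + j) <;> rfl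
  have hall : ∀ e ∈ srtE p q a1 a2 c1 c2,
      flX (chiN (cf fun a b => M (ρ a) (γ b))) e.1 = e.2 := by
    intro e he
    rcases mem_srtE he with ⟨x, y, hxy, hp, rfl⟩ | ⟨x, y, hxy, hq, rfl⟩
    · exact flX_mm h63 hxy hc ((minor_sign hb'.1 hxy hc).2.2 (hsr.1 x y hxy hp))
    · exact flX_mm h63 ha hxy ((minor_sign hb'.1 ha hxy).2.2 (hsr.2 x y hxy hq))
  have hE : ∀ {E : List (ℕ × Bool)}, subE E p q a1 a2 c1 c2 = true →
      ∀ e ∈ E, flX (chiN (cf fun a b => M (ρ a) (γ b))) e.1 = e.2 := by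
    intro E hE e he
    exact hall e (List.contains_iff_mem.1 (List.all_eq_true.1 hE e he))
  have hbit : ∀ (x : ℕ) (k j : Fin 6), (x ||| 2 ^ 36).testBit (6 * (k : ℕ) + j) =
      x.testBit (6 * (k : ℕ) + j) := by
    intro x k j
    rw [Nat.testBit_or, Nat.testBit_two_pow, decide_eq_false (by omega), Bool.or_false]
  have hR := rmodel_flX hMod hS
  have hd : flX (chiN (cf fun a b => M (ρ a) (γ b))) 4032 =
      !(chiN (cf fun a b => M (ρ a) (γ b)) 4032) := flX_4032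
  rcases hD : chiN (cf fun a b => M (ρ a) (γ b)) 4032 with _ | _
  · refine h1 _ _ hR (by rw [flX_63, h63]) (simp_flX hS) ⟨fun k j h => ?_, fun _ => ?_⟩ (hE s1)
      (x1 _ hb' hM')
    · rw [hbit w k j]
      exact hsg k j (by rw [← hbit m k j]; exact h)
    · rw [hd, hD, Nat.testBit_or, Nat.testBit_two_pow]
      simp
  · refine h0 _ _ hR (by rw [flX_63, h63]) (simp_flX hS) ⟨fun k j h => ?_, fun _ => ?_⟩ (hE s0)
      (x0 _ hb' hM')
    · exact hsg k j (by rw [← hbit m k j]; exact h)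
    · rw [hd, hD, Nat.testBit_lt_two_pow hw]
      rfl

/-- **Four patterns from two sorted relaxed refutations.** -/
theorem good_of_sorted_both {p q m w : ℕ} {E1 E0 : List (ℕ × Bool)} {a1 a2 c1 c2 : Fin 6}
    (h1 : RRefX (m ||| 2 ^ 36) (w ||| 2 ^ 36) E1 0 0) (h0 : RRefX (m ||| 2 ^ 36) w E0 0 0)
    (ha : a1 < a2) (hc : c1 < c2) (hm : m < 2 ^ 36) (hw : w < 2 ^ 36) (hinv : Inv p q m w)
    (hok : SortOK (blk p) (blk q) a1 a2 c1 c2) (s1 : subE E1 p q a1 a2 c1 c2 = true)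
    (s0 : subE E0 p q a1 a2 c1 c2 = true) : Good m w ∧ Good m (w ^^^ m) :=
  ⟨good_of_sorted h1.refX h0.refX (extOK_zero 0) (extOK_zero 0) ha hc hm hw hinv hok s1 s0,
    good_of_sorted_flip h1 h0 (extF_zero 0) (extF_zero 0) ha hc hm hw hinv hok s1 s0⟩

end Pool.Agent.H26.Z12
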