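import Pool.Agent.H26.Z12.MaxRank
import Pool.Agent.H28.Z12.SFr

/-!
Pieces with chart clauses in the sorted frame (MP_1e71f9_co).
-/

set_option autoImplicit false

namespace Pool.Agent.H26.Z12

open Pool.Agent.H67.Nu Pool.Agent.H77.Z12 Pool.Agent.H28.Z12 Pool.Agent.H13.Z12

/-- **A pattern refuted in the sorted frame with clauses of charts of larger rank.** -/
theorem sGood_of_refXY {F G r m w X nX Y nY : ℕ} {E : List (ℕ × Bool)}
    (h : RefXY m w E X nX Y nY) (hx : ExtOK X nX) (hE : sub29 E = true)
    (hc : chkY2 F G r Y nY = true) (hF : monoT F = true) (hG : monoT G = true)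
    (hr : MaxK F G r) : SGood m w :=
  sGood_of_sref (sref_of_refXY h hx (yOK_of2 hF hG hr hc)) hE

/-- The same for the cover: `r` is at least the rank of the largest matrix of the pattern. -/
theorem cs_of_refXY {F G r m w X nX Y nY : ℕ} {E : List (ℕ × Bool)}
    (h : RefXY m w E X nX Y nY) (hx : ExtOK X nX) (hE : sub29 E = true)
    (hc : chkY2 F G r Y nY = true) (hF : monoT F = true) (hG : monoT G = true)
    (hr : Nat.ble (NR F G (hiN m w)) r = true) : CS (RR F G) m w :=
  cs_of_maxK hF hG hr (sGood_of_refXY h hx hE hc hF hG)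

end Pool.Agent.H26.Z12
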