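import Pool.Agent.H26.Z12.ChartS

/-!
The rank used for the exceptional classes: the number of rows and columns with at least two
positive signs (MP_1e71f9_co).
-/

set_option autoImplicit false

namespace Pool.Agent.H26.Z12

open Pool.Agent.H67.Nu Pool.Agent.H77.Z12 Pool.Agent.H28.Z12 Pool.Agent.H13.Z12

/-- The table `0, 0, 1, 1, 1, 1, 1`. -/
def lamT : Nat := nat_lit 79229371458530977775699886080

theorem mono_lamT : monoT lamT = true := by decide +kernel

/-- A class excluded with clauses of charts of larger rank. -/
theorem cg_lam {r m w X nX Y nY : Nat} (h : RefXY m w [] X nX Y nY) (hx : ExtOK X nX)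
    (hc : chkY2 lamT lamT r Y nY = true) (hr : Nat.ble (NR lamT lamT (hiN m w)) r = true) :
    CG (RR lamT lamT) m w :=
  cg_of_maxK mono_lamT mono_lamT hr (good_of_rank2 h hx hc mono_lamT mono_lamT)

/-- A pattern excluded in the sorted frame with clauses of charts of larger rank. -/
theorem cs_lam {r m w X nX Y nY : Nat} {E : List (Nat × Bool)} (h : RefXY m w E X nX Y nY)
    (hx : ExtOK X nX) (hE : sub29 E = true)
    (hc : chkY2 lamT lamT r Y nY = true) (hr : Nat.ble (NR lamT lamT (hiN m w)) r = true) :
    CS (RR lamT lamT) m w :=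
  cs_of_refXY h hx hE hc mono_lamT mono_lamT hr

end Pool.Agent.H26.Z12
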